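import Mathlib

/-!
A bounded algebraic subset of `ℂ^σ` is finite (countable dimension argument).
-/

set_option autoImplicit false

namespace Pool.Agent.Lib_helper65

open MvPolynomial

theorem exists_inv_mod {σ : Type} [Finite σ] (I : Ideal (MvPolynomial σ ℂ)) (i : σ) (c : ℂ)
    (h : ∀ x ∈ zeroLocus ℂ I, x i ≠ c) :
    ∃ q : MvPolynomial σ ℂ, (X i - C c) * q - 1 ∈ I := by
  have hJ : I ⊔ Ideal.span {(X i - C c : MvPolynomial σ ℂ)} = ⊤ := by
    rw [← Ideal.radical_eq_top, ← vanishingIdeal_zeroLocus_eq_radical (K := ℂ)]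
    have he : zeroLocus ℂ (I ⊔ Ideal.span {(X i - C c : MvPolynomial σ ℂ)}) = ∅ := by
      rw [Set.eq_empty_iff_forall_notMem]
      intro x hx
      rw [mem_zeroLocus_iff] at hx
      refine h x ?_ ?_
      · rw [mem_zeroLocus_iff]
        intro p hp
        exact hx p (Ideal.mem_sup_left hp)
      · have := hx (X i - C c) (Ideal.mem_sup_right (Ideal.subset_span rfl))
        simpa [sub_eq_zero] using this
    rw [he]
    ext p
    simp
  have h1 : (1 : MvPolynomial σ ℂ) ∈ I ⊔ Ideal.span {(X i - C c : MvPolynomial σ ℂ)} := by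
    rw [hJ]; trivial
  obtain ⟨a, ha, b, hb, hab⟩ := Submodule.mem_sup.1 h1
  obtain ⟨q, rfl⟩ := Ideal.mem_span_singleton'.1 hb
  refine ⟨q, ?_⟩
  have : (X i - C c) * q - 1 = -a := by
    rw [← hab]; ring
  rw [this]
  exact I.neg_mem ha

theorem coord_finite {σ : Type} [Fintype σ] (I : Ideal (MvPolynomial σ ℂ)) (i : σ)
    (R : ℝ) (hR : ∀ x ∈ zeroLocus ℂ I, ‖x i‖ ≤ R) :
    ∃ F : Set ℂ, F.Finite ∧ ∀ x ∈ zeroLocus ℂ I, x i ∈ F := by
  have hq : ∀ c : {c : ℂ // R < ‖c‖}, ∃ q : MvPolynomial σ ℂ, (X i - C c.1) * q - 1 ∈ I := by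
    intro c
    refine exists_inv_mod I i c.1 fun x hx hc => ?_
    have := hR x hx
    rw [hc] at this
    exact absurd c.2 (not_lt.2 this)
  choose q hq using hq
  have hdep : ¬ LinearIndependent ℂ q := by
    intro hli
    have h1 := hli.cardinal_le_rank
    have h2 : Module.rank ℂ (MvPolynomial σ ℂ) ≤ Cardinal.aleph0 := by
      rw [MvPolynomial.rank_eq]
      exact Cardinal.mk_le_aleph0
    have h3 : Cardinal.aleph0 < Cardinal.mk {c : ℂ // R < ‖c‖} := by
      have h4 : Cardinal.mk (Set.Ioi (max R 0)) ≤ Cardinal.mk {c : ℂ // R < ‖c‖} := by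
        refine Cardinal.mk_le_of_injective
          (f := fun r => ⟨((r.1 : ℝ) : ℂ), ?_⟩) ?_
        · have hr := r.2
          rw [Set.mem_Ioi, max_lt_iff] at hr
          rw [Complex.norm_real, Real.norm_eq_abs, abs_of_pos hr.2]
          exact hr.1
        · intro r s hrs
          have := congrArg Subtype.val hrs
          simp only at this
          exact Subtype.ext (Complex.ofReal_injective this)
      rw [Cardinal.mk_Ioi_real] at h4
      exact lt_of_lt_of_le Cardinal.aleph0_lt_continuum h4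
    exact absurd (h1.trans h2) (not_le.2 h3)
  rw [linearIndependent_iff'] at hdep
  push Not at hdep
  obtain ⟨s, a, hsum, c₀, hc₀s, hc₀⟩ := hdep
  let p : Polynomial ℂ := ∑ c ∈ s, Polynomial.C (a c) * ∏ c' ∈ s.erase c,
    (Polynomial.X - Polynomial.C c'.1)
  have hp : p ≠ 0 := by
    intro hp0
    have h1 : p.eval c₀.1 = 0 := by rw [hp0]; simp
    have h2 : p.eval c₀.1 = a c₀ * ∏ c' ∈ s.erase c₀, (c₀.1 - c'.1) := by
      simp only [p, Polynomial.eval_finsetSum, Polynomial.eval_mul, Polynomial.eval_C,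
        Polynomial.eval_prod, Polynomial.eval_sub, Polynomial.eval_X]
      refine Finset.sum_eq_single c₀ ?_ ?_
      · intro b hb hbc
        refine mul_eq_zero_of_right _ (Finset.prod_eq_zero (i := c₀) ?_ (sub_self _))
        exact Finset.mem_erase.2 ⟨fun h => hbc h.symm, hc₀s⟩
      · intro h; exact absurd hc₀s h
    rw [h2] at h1
    rcases mul_eq_zero.1 h1 with h | h
    · exact hc₀ h
    · obtain ⟨c', hc', h⟩ := Finset.prod_eq_zero_iff.1 h
      have : c₀ = c' := Subtype.ext (sub_eq_zero.1 h)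
      rw [← this] at hc'
      exact (Finset.notMem_erase _ _) hc'
  refine ⟨{z | p.IsRoot z}, Polynomial.finite_setOfPred_isRoot hp, fun x hx => ?_⟩
  rw [mem_zeroLocus_iff] at hx
  have hx' : ∀ c : {c : ℂ // R < ‖c‖}, (x i - c.1) * aeval x (q c) = 1 := by
    intro c
    have := hx _ (hq c)
    simpa [sub_eq_zero] using this
  have hs : ∑ c ∈ s, a c * aeval x (q c) = 0 := by
    have := congrArg (aeval x) hsum
    simpa [Algebra.smul_def] using this
  show p.eval (x i) = 0
  simp only [p, Polynomial.eval_finsetSum, Polynomial.eval_mul, Polynomial.eval_C,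
    Polynomial.eval_prod, Polynomial.eval_sub, Polynomial.eval_X]
  have h3 : ∀ c ∈ s, a c * ∏ c' ∈ s.erase c, (x i - c'.1) =
      (∏ c' ∈ s, (x i - c'.1)) * (a c * aeval x (q c)) := by
    intro c hc
    rw [← Finset.mul_prod_erase s _ hc]
    linear_combination (-(a c * ∏ c' ∈ s.erase c, (x i - c'.1))) * hx' c
  rw [Finset.sum_congr rfl h3, ← Finset.mul_sum, hs, mul_zero]

/-- A bounded algebraic subset of `ℂ^σ` is finite. -/
theorem finite_of_bounded {σ : Type} [Fintype σ] (I : Ideal (MvPolynomial σ ℂ))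
    (R : ℝ) (hR : ∀ x ∈ zeroLocus ℂ I, ∀ i, ‖x i‖ ≤ R) :
    (zeroLocus ℂ I).Finite := by
  choose F hF hF' using fun i => coord_finite I i R (fun x hx => hR x hx i)
  refine (Set.Finite.pi (t := F) fun i => hF i).subset ?_
  intro x hx i _
  exact hF' i x hx

/-- The common zeros of a family of polynomials, if bounded, are finitely many. -/
theorem finite_zeros_of_bounded {σ ι : Type} [Fintype σ] (P : ι → MvPolynomial σ ℂ)
    (R : ℝ) (hR : ∀ x : σ → ℂ, (∀ j, MvPolynomial.eval x (P j) = 0) → ∀ i, ‖x i‖ ≤ R) :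
    {x : σ → ℂ | ∀ j, MvPolynomial.eval x (P j) = 0}.Finite := by
  have h := finite_of_bounded (Ideal.span (Set.range P)) R ?_
  · refine h.subset fun x hx => ?_
    rw [zeroLocus_span]
    rintro _ ⟨j, rfl⟩
    rw [MvPolynomial.aeval_eq_eval]
    exact hx j
  · intro x hx
    rw [zeroLocus_span] at hx
    refine hR x fun j => ?_
    have := hx (P j) ⟨j, rfl⟩
    rwa [MvPolynomial.aeval_eq_eval] at this

end Pool.Agent.Lib_helper65
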