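import Mathlib

/-!
Compactness of the Grassmannian in matrix form: every `n × k` matrix of rank `k` can be
normalised by column operations so that all entries have norm at most `1` and some `k × k`
submatrix is the identity; hence sequences have convergent subsequences after normalisation.
-/

set_option autoImplicit false

namespace Pool.Agent.Lib_helper65

open Matrix Filter Topology

variable {n k : ℕ}

/-- Row `i` of `X * (X_I)⁻¹` is given by Cramer's rule. -/
theorem cramer_row (X : Matrix (Fin n) (Fin k) ℂ) (I : Fin k → Fin n)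
    (i : Fin n) (j : Fin k) :
    (X * (X.submatrix I id)⁻¹) i j =
      (X.submatrix (Function.update I j i) id).det / (X.submatrix I id).det := by
  set A := X.submatrix I id with hA
  have h1 : X.submatrix (Function.update I j i) id = A.updateRow j (X i) := by
    ext a b
    by_cases ha : a = j
    · subst ha; simp
    · simp [ha, hA]
  rw [h1, Matrix.inv_def, Matrix.mul_smul, Matrix.smul_apply, Ring.inverse_eq_inv', smul_eq_mul,
    div_eq_inv_mul]
  congr 1
  have h2 : (A.updateRow j (X i)).det = ∑ l, X i l * A.adjugate l j := by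
    have h3 : (A.updateRow j (X i)).det = ((A.updateRow j (X i)) * (A.updateRow j (X i)).adjugate) j j := by
      rw [Matrix.mul_adjugate]; simp
    rw [h3, Matrix.mul_apply]
    refine Finset.sum_congr rfl fun l _ => ?_
    rw [Matrix.updateRow_self]
    congr 1
    rw [Matrix.adjugate_apply, Matrix.adjugate_apply, Matrix.updateRow_idem]
  rw [h2, Matrix.mul_apply]

/-- Normal form. -/
theorem exists_normal (X : Matrix (Fin n) (Fin k) ℂ) (hX : ∃ I : Fin k → Fin n,
    (X.submatrix I id).det ≠ 0) :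
    ∃ I : Fin k → Fin n, (X.submatrix I id).det ≠ 0 ∧
      (X * (X.submatrix I id)⁻¹).submatrix I id = 1 ∧
      ∀ i j, ‖(X * (X.submatrix I id)⁻¹) i j‖ ≤ 1 := by
  obtain ⟨I₀, hI₀⟩ := hX
  obtain ⟨I, -, hI⟩ := Finset.exists_max_image (Finset.univ : Finset (Fin k → Fin n))
    (fun I => ‖(X.submatrix I id).det‖) ⟨I₀, Finset.mem_univ _⟩
  have hne : (X.submatrix I id).det ≠ 0 := by
    intro h
    have := hI I₀ (Finset.mem_univ _)
    rw [h, norm_zero] at this
    exact hI₀ (norm_le_zero_iff.1 this)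
  refine ⟨I, hne, ?_, fun i j => ?_⟩
  · have : (X * (X.submatrix I id)⁻¹).submatrix I id =
        (X.submatrix I id) * (X.submatrix I id)⁻¹ := by
      ext a b; simp [Matrix.mul_apply]
    rw [this, Matrix.mul_nonsing_inv _ (isUnit_iff_ne_zero.2 hne)]
  · rw [cramer_row X I, norm_div, div_le_one (norm_pos_iff.2 hne)]
    exact hI _ (Finset.mem_univ _)

/-- Sequential compactness of the Grassmannian in matrix form. -/
theorem exists_subseq (X : ℕ → Matrix (Fin n) (Fin k) ℂ)
    (hX : ∀ j, ∃ I : Fin k → Fin n, ((X j).submatrix I id).det ≠ 0) :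
    ∃ (g : ℕ → Matrix (Fin k) (Fin k) ℂ) (φ : ℕ → ℕ) (Y : Matrix (Fin n) (Fin k) ℂ)
      (I : Fin k → Fin n), (∀ j, (g j).det ≠ 0) ∧ StrictMono φ ∧
      Tendsto (fun j => X (φ j) * g (φ j)) atTop (𝓝 Y) ∧
      (∀ j, (X (φ j) * g (φ j)).submatrix I id = 1) ∧ Y.submatrix I id = 1 := by
  choose I hI hI1 hI2 using fun j => exists_normal (X j) (hX j)
  -- constant index function along a subsequence
  obtain ⟨I₀, hI₀⟩ : ∃ I₀ : Fin k → Fin n, ∃ᶠ j in atTop, I j = I₀ := by
    by_contra hcon
    push Not at hcon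
    have : ∀ᶠ j in atTop, ∀ I₀ : Fin k → Fin n, I j ≠ I₀ := by
      rw [Filter.eventually_all]
      intro I₀
      simpa [Filter.not_frequently] using hcon I₀
    obtain ⟨j, hj⟩ := this.exists
    exact hj (I j) rfl
  obtain ⟨φ₁, hφ₁, hφ₁'⟩ := Filter.extraction_of_frequently_atTop hI₀
  let g : ℕ → Matrix (Fin k) (Fin k) ℂ := fun j => ((X j).submatrix (I j) id)⁻¹
  have hg : ∀ j, (g j).det ≠ 0 := by
    intro j
    have h1 : (g j).det * ((X j).submatrix (I j) id).det = 1 := by
      rw [← Matrix.det_mul, Matrix.nonsing_inv_mul _ (isUnit_iff_ne_zero.2 (hI j)),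
        Matrix.det_one]
    exact left_ne_zero_of_mul_eq_one h1
  let K : Set (Fin n → Fin k → ℂ) :=
    Set.pi Set.univ fun _ => Set.pi Set.univ fun _ => Metric.closedBall (0 : ℂ) 1
  have hK : IsCompact K :=
    isCompact_univ_pi fun _ => isCompact_univ_pi fun _ => isCompact_closedBall _ _
  let xs : ℕ → Fin n → Fin k → ℂ := fun j =>
    (X (φ₁ j) * g (φ₁ j) : Matrix (Fin n) (Fin k) ℂ)
  obtain ⟨Y', -, φ₂, hφ₂, hY'⟩ := hK.tendsto_subseq (x := xs)
    (fun j i _ l _ => by
      rw [mem_closedBall_zero_iff]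
      exact hI2 (φ₁ j) i l)
  let Y : Matrix (Fin n) (Fin k) ℂ := Y'
  have hY : Tendsto (fun j => X (φ₁ (φ₂ j)) * g (φ₁ (φ₂ j))) atTop (𝓝 Y) := hY'
  refine ⟨g, φ₁ ∘ φ₂, Y, I₀, hg, hφ₁.comp hφ₂, hY, ?_, ?_⟩
  · intro j
    have := hI1 (φ₁ (φ₂ j))
    rw [hφ₁' (φ₂ j)] at this
    simp only [Function.comp, g]
    rw [hφ₁' (φ₂ j)]
    exact this
  · have h1 : Tendsto (fun j => (X (φ₁ (φ₂ j)) * g (φ₁ (φ₂ j))).submatrix I₀ id) atTop
        (𝓝 (Y.submatrix I₀ id)) := by
      have hc : Continuous fun Z : Matrix (Fin n) (Fin k) ℂ => Z.submatrix I₀ id := by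
        exact Continuous.matrix_submatrix continuous_id _ _
      exact (hc.tendsto Y).comp hY
    have h2 : (fun j => (X (φ₁ (φ₂ j)) * g (φ₁ (φ₂ j))).submatrix I₀ id) = fun _ => 1 := by
      funext j
      have := hI1 (φ₁ (φ₂ j))
      rw [hφ₁' (φ₂ j)] at this
      simp only [g]
      rw [hφ₁' (φ₂ j)]
      exact this
    rw [h2] at h1
    exact (tendsto_nhds_unique h1 tendsto_const_nhds)

end Pool.Agent.Lib_helper65
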