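import Mathlib

/-!
# Super edge-magic labelings and book graphs: definitions
-/

namespace Pool.Agent.Lib_helper65.Book

/-- `f` is an edge-magic labeling of `G`: a bijection from `V ∪ E` onto `{1, ..., p + q}`
(`p` vertices, `q` edges) such that `f u + f v + f (uv)` is the same number for every edge `uv`. -/
def IsEdgeMagicLabeling {V : Type*} (G : SimpleGraph V) (f : V ⊕ G.edgeSet → ℕ) : Prop :=
  Set.BijOn f Set.univ (Set.Icc 1 (Nat.card V + Nat.card G.edgeSet)) ∧
    ∃ σ : ℕ, ∀ (u v : V) (h : G.Adj u v),
      f (Sum.inl u) + f (Sum.inl v) + f (Sum.inr ⟨s(u, v), h⟩) = σ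

/-- `G` is super edge-magic: it has an edge-magic labeling whose vertex labels are exactly
`{1, ..., p}`. -/
def IsSuperEdgeMagic {V : Type*} (G : SimpleGraph V) : Prop :=
  ∃ f : V ⊕ G.edgeSet → ℕ, IsEdgeMagicLabeling G f ∧
    Set.range (fun v : V => f (Sum.inl v)) = Set.Icc 1 (Nat.card V)

/-- The book `B_n = K_{1,n} □ K_2`: the Cartesian product of the star with `n` leaves
(centre `none`, leaves `some i`) and an edge (the complete graph on `Bool`). -/
def book (n : ℕ) : SimpleGraph (Option (Fin n) × Bool) :=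
  SimpleGraph.boxProd (SimpleGraph.starGraph (none : Option (Fin n))) (⊤ : SimpleGraph Bool)

end Pool.Agent.Lib_helper65.Book
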