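import Mathlib
import Pool.Agent.Lib_helper65.BookDefs

/-!
# Super edge-magic labelings of books: the combinatorial criterion
-/

namespace Pool.Agent.Lib_helper65.Book

open Finset

/-- Index type of the edges of the book. -/
abbrev EIdx (n : ℕ) := Option (Fin 3 × Fin n)

/-- The two ends of an edge of the book. -/
def ends (n : ℕ) : EIdx n → (Option (Fin n) × Bool) × (Option (Fin n) × Bool)
  | none => ((none, false), (none, true))
  | some (0, i) => ((none, false), (some i, false))
  | some (1, i) => ((none, true), (some i, true))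
  | some (2, i) => ((some i, false), (some i, true))

lemma ends_adj (n : ℕ) (e : EIdx n) : (book n).Adj (ends n e).1 (ends n e).2 := by
  rcases e with _ | ⟨j, i⟩
  · simp [ends, book, SimpleGraph.boxProd_adj]
  · fin_cases j <;> simp [ends, book, SimpleGraph.boxProd_adj]

/-- The edge with a given index. -/
def emap (n : ℕ) (e : EIdx n) : (book n).edgeSet :=
  ⟨s((ends n e).1, (ends n e).2), ends_adj n e⟩

lemma emap_injective (n : ℕ) : Function.Injective (emap n) := by
  intro e e' h
  have h' : s((ends n e).1, (ends n e).2) = s((ends n e').1, (ends n e').2) :=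
    congrArg Subtype.val h
  rw [Sym2.eq_iff] at h'
  rcases e with _ | ⟨j, i⟩ <;> rcases e' with _ | ⟨j', i'⟩
  · rfl
  · fin_cases j' <;> simp [ends] at h'
  · fin_cases j <;> simp [ends] at h'
  · fin_cases j <;> fin_cases j' <;> simp_all [ends]

lemma emap_surjective (n : ℕ) : Function.Surjective (emap n) := by
  rintro ⟨e, he⟩
  induction e using Sym2.ind with
  | _ u v =>
    rcases u with ⟨u1, u2⟩
    rcases v with ⟨v1, v2⟩
    have h : (book n).Adj (u1, u2) (v1, v2) := he
    simp only [book, SimpleGraph.boxProd_adj, SimpleGraph.starGraph_adj, SimpleGraph.top_adj] at h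
    rcases h with ⟨⟨hne, hc⟩, h2⟩ | ⟨hne, h1⟩
    · rcases u1 with _ | i
      · rcases v1 with _ | j
        · exact absurd rfl hne
        · subst h2
          cases u2
          · exact ⟨some (0, j), rfl⟩
          · exact ⟨some (1, j), rfl⟩
      · rcases v1 with _ | j
        · subst h2
          cases u2
          · exact ⟨some (0, i), Subtype.ext Sym2.eq_swap⟩
          · exact ⟨some (1, i), Subtype.ext Sym2.eq_swap⟩
        · simp at hc
    · subst h1
      rcases u1 with _ | i
      · cases u2 <;> cases v2
        · exact absurd rfl hne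
        · exact ⟨none, rfl⟩
        · exact ⟨none, Subtype.ext Sym2.eq_swap⟩
        · exact absurd rfl hne
      · cases u2 <;> cases v2
        · exact absurd rfl hne
        · exact ⟨some (2, i), rfl⟩
        · exact ⟨some (2, i), Subtype.ext Sym2.eq_swap⟩
        · exact absurd rfl hne

lemma emap_bijective (n : ℕ) : Function.Bijective (emap n) :=
  ⟨emap_injective n, emap_surjective n⟩

lemma card_vertices (n : ℕ) : Nat.card (Option (Fin n) × Bool) = 2 * n + 2 := by
  simp [Nat.card_eq_fintype_card]; ring

lemma card_EIdx (n : ℕ) : Fintype.card (EIdx n) = 3 * n + 1 := by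
  simp

lemma card_edges (n : ℕ) : Nat.card (book n).edgeSet = 3 * n + 1 := by
  rw [← Nat.card_eq_of_bijective _ (emap_bijective n), Nat.card_eq_fintype_card, card_EIdx]

/-- A function from a finite type onto (at least) an interval of the same size is injective and
its image is that interval. -/
lemma inj_of_cover {ι : Type*} [Fintype ι] (g : ι → ℕ) (a b : ℕ)
    (hcard : Fintype.card ι + a = b) (h : ∀ t, a ≤ t → t < b → ∃ i, g i = t) :
    Function.Injective g ∧ ∀ i, a ≤ g i ∧ g i < b := by
  classical
  have hsub : Finset.Ico a b ⊆ Finset.univ.image g := by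
    intro t ht
    rw [Finset.mem_Ico] at ht
    obtain ⟨i, hi⟩ := h t ht.1 ht.2
    exact Finset.mem_image.2 ⟨i, Finset.mem_univ _, hi⟩
  have hle : (Finset.univ.image g).card ≤ (Finset.Ico a b).card := by
    calc (Finset.univ.image g).card ≤ (Finset.univ : Finset ι).card := Finset.card_image_le
      _ = (Finset.Ico a b).card := by
          rw [Nat.card_Ico, Finset.card_univ]; omega
  have heq := Finset.eq_of_subset_of_card_le hsub hle
  constructor
  · have : (Finset.univ.image g).card = (Finset.univ : Finset ι).card := by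
      rw [← heq, Nat.card_Ico, Finset.card_univ]; omega
    have := Finset.card_image_iff.1 this
    intro i j hij
    exact this (by simp) (by simp) hij
  · intro i
    have : g i ∈ Finset.Ico a b := by
      rw [heq]; exact Finset.mem_image_of_mem _ (Finset.mem_univ _)
    exact Finset.mem_Ico.1 this

/-- Sum of the labels of the two ends. -/
def esum {n : ℕ} (g : Option (Fin n) × Bool → ℕ) (e : EIdx n) : ℕ :=
  g (ends n e).1 + g (ends n e).2

/-- Criterion: vertex labels covering `[1, 2n+2]` with edge sums covering `[s, s+3n]`. -/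
theorem superEdgeMagic_of_cover (n s : ℕ) (g : Option (Fin n) × Bool → ℕ)
    (hv : ∀ t, 1 ≤ t → t < 2 * n + 3 → ∃ v, g v = t)
    (he : ∀ t, s ≤ t → t < s + (3 * n + 1) → ∃ e, esum g e = t) :
    IsSuperEdgeMagic (book n) := by
  classical
  obtain ⟨ginj, grange⟩ := inj_of_cover g 1 (2 * n + 3)
    (by rw [← Nat.card_eq_fintype_card, card_vertices]) hv
  obtain ⟨einj, erange⟩ := inj_of_cover (esum g) s (s + (3 * n + 1))
    (by rw [card_EIdx]; ring) he
  set E : EIdx n ≃ (book n).edgeSet := Equiv.ofBijective _ (emap_bijective n) with hE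
  set C := 5 * n + 3 + s with hC
  let f : (Option (Fin n) × Bool) ⊕ (book n).edgeSet → ℕ :=
    Sum.elim g (fun e => C - esum g (E.symm e))
  have hfe : ∀ e : EIdx n, f (Sum.inr (emap n e)) = C - esum g e := by
    intro e
    have : E.symm (emap n e) = e := by
      rw [Equiv.symm_apply_eq]; rfl
    simp only [f, Sum.elim_inr, this]
  refine ⟨f, ⟨?_, C, ?_⟩, ?_⟩
  · rw [card_vertices, card_edges]
    refine ⟨?_, ?_, ?_⟩
    · rintro (v | e) -
      · have := grange v
        simp only [f, Sum.elim_inl, Set.mem_Icc]; omega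
      · have := erange (E.symm e)
        simp only [f, Sum.elim_inr, Set.mem_Icc]; omega
    · rintro (v | e) - (v' | e') - h
      · simp only [f, Sum.elim_inl] at h
        rw [ginj h]
      · simp only [f, Sum.elim_inl, Sum.elim_inr] at h
        have h1 := grange v
        have h2 := erange (E.symm e')
        omega
      · simp only [f, Sum.elim_inl, Sum.elim_inr] at h
        have h1 := grange v'
        have h2 := erange (E.symm e)
        omega
      · simp only [f, Sum.elim_inr] at h
        have h1 := erange (E.symm e)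
        have h2 := erange (E.symm e')
        have : esum g (E.symm e) = esum g (E.symm e') := by omega
        have := E.symm.injective (einj this)
        rw [this]
    · intro t ht
      rw [Set.mem_Icc] at ht
      by_cases h : t < 2 * n + 3
      · obtain ⟨v, hv'⟩ := hv t ht.1 h
        exact ⟨Sum.inl v, Set.mem_univ _, hv'⟩
      · obtain ⟨e, he'⟩ := he (C - t) (by omega) (by omega)
        refine ⟨Sum.inr (emap n e), Set.mem_univ _, ?_⟩
        rw [hfe, he']; omega
  · intro u v h
    obtain ⟨e, he'⟩ := emap_surjective n ⟨s(u, v), h⟩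
    rw [← he', hfe]
    have h1 := erange e
    have h2 : esum g e = g u + g v := by
      have h3 : s((ends n e).1, (ends n e).2) = s(u, v) := congrArg Subtype.val he'
      rw [Sym2.eq_iff] at h3
      rcases h3 with ⟨h4, h5⟩ | ⟨h4, h5⟩
      · rw [esum, h4, h5]
      · rw [esum, h4, h5, add_comm]
    simp only [f, Sum.elim_inl]
    omega
  · rw [card_vertices]
    ext t
    simp only [Set.mem_range, Set.mem_Icc, f, Sum.elim_inl]
    constructor
    · rintro ⟨v, rfl⟩
      have := grange v
      omega
    · rintro ⟨h1, h2⟩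
      exact hv t h1 (by omega)

/-- Criterion in terms of a list of `n` pairs `(x, y)` of labels of the pages. -/
theorem superEdgeMagic_of_list (n α β s : ℕ) (L : List (ℕ × ℕ)) (hL : L.length = n)
    (hv : ∀ t, 1 ≤ t → t < 2 * n + 3 → t = α ∨ t = β ∨ ∃ q ∈ L, q.1 = t ∨ q.2 = t)
    (he : ∀ t, s ≤ t → t < s + (3 * n + 1) →
      t = α + β ∨ ∃ q ∈ L, α + q.1 = t ∨ β + q.2 = t ∨ q.1 + q.2 = t) :
    IsSuperEdgeMagic (book n) := by
  subst hL
  let g : Option (Fin L.length) × Bool → ℕ := fun v =>
    match v with
    | (none, false) => α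
    | (none, true) => β
    | (some i, false) => (L.get i).1
    | (some i, true) => (L.get i).2
  refine superEdgeMagic_of_cover L.length s g ?_ ?_
  · intro t h1 h2
    rcases hv t h1 h2 with h | h | ⟨q, hq, h⟩
    · exact ⟨(none, false), h.symm⟩
    · exact ⟨(none, true), h.symm⟩
    · obtain ⟨i, rfl⟩ := List.get_of_mem hq
      rcases h with h | h
      · exact ⟨(some i, false), h⟩
      · exact ⟨(some i, true), h⟩
  · intro t h1 h2
    rcases he t h1 h2 with h | ⟨q, hq, h⟩
    · exact ⟨none, h.symm⟩
    · obtain ⟨i, rfl⟩ := List.get_of_mem hq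
      rcases h with h | h | h
      · exact ⟨some (0, i), h⟩
      · exact ⟨some (1, i), h⟩
      · exact ⟨some (2, i), h⟩

/-- The parity obstruction: for odd `n` the book can only be super edge-magic if
`n ≡ 5 (mod 8)`. -/
theorem odd_case (n : ℕ) (h : IsSuperEdgeMagic (book n)) : Even n ∨ n % 8 = 5 := by
  classical
  obtain ⟨f, ⟨hbij, σ, hσ⟩, hrange⟩ := h
  rw [card_vertices, card_edges] at hbij
  rw [card_vertices] at hrange
  set g : Option (Fin n) × Bool → ℕ := fun v => f (Sum.inl v) with hg
  have finj : Function.Injective f := fun a b hab =>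
    hbij.injOn (Set.mem_univ _) (Set.mem_univ _) hab
  have ginj : Function.Injective g := fun a b hab => Sum.inl_injective (finj hab)
  -- sum of the vertex labels
  have himg : Finset.univ.image g = Finset.Icc 1 (2 * n + 2) := by
    ext t
    have := Set.ext_iff.1 hrange t
    simp only [Set.mem_range, Set.mem_Icc] at this
    simp only [Finset.mem_image, Finset.mem_univ, true_and, Finset.mem_Icc]
    exact this
  have hsumv : ∑ v, g v = ∑ t ∈ Finset.Icc 1 (2 * n + 2), t := by
    rw [← himg, Finset.sum_image (fun a _ b _ hab => ginj hab)]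
  have hsumv2 : (∑ t ∈ Finset.Icc 1 (2 * n + 2), t) * 2 = (2 * n + 2) * (2 * n + 3) := by
    have : ∀ m : ℕ, (∑ t ∈ Finset.Icc 1 m, t) * 2 = m * (m + 1) := by
      intro m
      induction m with
      | zero => simp
      | succ m ih => rw [Finset.sum_Icc_succ_top (by omega), add_mul, ih]; ring
    exact this _
  -- sum of all labels
  have himg2 : Finset.univ.image f = Finset.Icc 1 (5 * n + 3) := by
    ext t
    simp only [Finset.mem_image, Finset.mem_univ, true_and, Finset.mem_Icc]
    constructor
    · rintro ⟨a, rfl⟩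
      have := hbij.mapsTo (Set.mem_univ a)
      rw [Set.mem_Icc] at this
      omega
    · rintro ⟨h1, h2⟩
      obtain ⟨a, -, ha⟩ := hbij.surjOn (show t ∈ Set.Icc 1 (2 * n + 2 + (3 * n + 1)) by
        rw [Set.mem_Icc]; omega)
      exact ⟨a, ha⟩
  haveI : Fintype (book n).edgeSet := Fintype.ofFinite _
  have hsumf : ∑ a, f a = ∑ t ∈ Finset.Icc 1 (5 * n + 3), t := by
    have : (Finset.univ : Finset ((Option (Fin n) × Bool) ⊕ (book n).edgeSet)).image f
        = Finset.Icc 1 (5 * n + 3) := by
      rw [← himg2]; ext; simp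
    rw [← this, Finset.sum_image (fun a _ b _ hab => finj hab)]
  have hsumf2 : (∑ t ∈ Finset.Icc 1 (5 * n + 3), t) * 2 = (5 * n + 3) * (5 * n + 4) := by
    have : ∀ m : ℕ, (∑ t ∈ Finset.Icc 1 m, t) * 2 = m * (m + 1) := by
      intro m
      induction m with
      | zero => simp
      | succ m ih => rw [Finset.sum_Icc_succ_top (by omega), add_mul, ih]; ring
    exact this _
  rw [Fintype.sum_sum_type] at hsumf
  have hedge : ∑ e : (book n).edgeSet, f (Sum.inr e) = ∑ e : EIdx n, f (Sum.inr (emap n e)) := by
    symm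
    exact Fintype.sum_bijective (emap n) (emap_bijective n) _ _ (fun _ => rfl)
  -- magic condition summed over the edges
  have hmagic : ∑ e : EIdx n, (esum g e + f (Sum.inr (emap n e))) = (3 * n + 1) * σ := by
    have : ∀ e : EIdx n, esum g e + f (Sum.inr (emap n e)) = σ := fun e =>
      hσ _ _ (ends_adj n e)
    rw [Finset.sum_congr rfl (fun e _ => this e), Finset.sum_const, Finset.card_univ, card_EIdx,
      smul_eq_mul]
  rw [Finset.sum_add_distrib, ← hedge] at hmagic
  -- edge sums in terms of vertex labels
  have hes : ∑ e : EIdx n, esum g e = (n + 1) * (g (none, false) + g (none, true))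
      + 2 * (∑ i, g (some i, false)) + 2 * (∑ i, g (some i, true)) := by
    rw [Fintype.sum_option, Fintype.sum_prod_type, Fin.sum_univ_three]
    simp only [esum, ends, Finset.sum_add_distrib, Finset.sum_const, Finset.card_univ,
      Fintype.card_fin, smul_eq_mul]
    ring
  have hvs : ∑ v, g v = (g (none, false) + g (none, true))
      + (∑ i, g (some i, false)) + (∑ i, g (some i, true)) := by
    rw [Fintype.sum_prod_type, Fintype.sum_option]
    simp only [Fintype.sum_bool, Finset.sum_add_distrib]
    ring
  -- arithmetic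
  have hsumf' : ∑ v, g v + ∑ e : (book n).edgeSet, f (Sum.inr e)
      = ∑ t ∈ Finset.Icc 1 (5 * n + 3), t := hsumf
  generalize hA : g (none, false) + g (none, true) = A at *
  generalize hX : (∑ i, g (some i, false)) = X at *
  generalize hY : (∑ i, g (some i, true)) = Y at *
  generalize hT : (∑ e : (book n).edgeSet, f (Sum.inr e)) = T at *
  generalize hU : (∑ t ∈ Finset.Icc 1 (2 * n + 2), t) = U at *
  generalize hW : (∑ t ∈ Finset.Icc 1 (5 * n + 3), t) = W at *
  rw [hes] at hmagic
  rw [hvs] at hsumv hsumf'
  have key : 2 * ((n : ℤ) - 1) * A + 2 * (2 * n + 2) * (2 * n + 3) =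
      2 * (3 * n + 1) * σ - ((5 * n + 3) * (5 * n + 4) - (2 * n + 2) * (2 * n + 3)) := by
    have e1 : ((n : ℤ) + 1) * A + 2 * X + 2 * Y + T = (3 * n + 1) * σ := by exact_mod_cast hmagic
    have e2 : (A : ℤ) + X + Y = U := by exact_mod_cast hsumv
    have e3 : (A : ℤ) + X + Y + T = W := by exact_mod_cast hsumf'
    have e4 : (U : ℤ) * 2 = (2 * n + 2) * (2 * n + 3) := by exact_mod_cast hsumv2
    have e5 : (W : ℤ) * 2 = (5 * n + 3) * (5 * n + 4) := by exact_mod_cast hsumf2
    linear_combination 2 * e1 - 2 * e2 - 2 * e3 - e4 - e5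
  have h8 : (2 * ((n : ZMod 8) - 1) * (A : ZMod 8) + 2 * (2 * n + 2) * (2 * n + 3) : ZMod 8) =
      2 * (3 * n + 1) * (σ : ZMod 8)
        - ((5 * n + 3) * (5 * n + 4) - (2 * n + 2) * (2 * n + 3)) := by
    exact_mod_cast congrArg (Int.cast : ℤ → ZMod 8) key
  have dec : ∀ a b c : ZMod 8, (2 * (a - 1) * b + 2 * (2 * a + 2) * (2 * a + 3)) =
      2 * (3 * a + 1) * c - ((5 * a + 3) * (5 * a + 4) - (2 * a + 2) * (2 * a + 3)) →
      (a = ((0 : ℕ) : ZMod 8) ∨ a = ((2 : ℕ) : ZMod 8) ∨ a = ((4 : ℕ) : ZMod 8) ∨
        a = ((6 : ℕ) : ZMod 8) ∨ a = ((5 : ℕ) : ZMod 8)) := by decide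
  have hev : ∀ r : ℕ, (n : ZMod 8) = (r : ZMod 8) → n % 8 = r % 8 := fun r hr =>
    (ZMod.natCast_eq_natCast_iff' n r 8).1 hr
  rcases dec _ _ _ h8 with h | h | h | h | h
  · left; have := hev _ h; rw [Nat.even_iff]; omega
  · left; have := hev _ h; rw [Nat.even_iff]; omega
  · left; have := hev _ h; rw [Nat.even_iff]; omega
  · left; have := hev _ h; rw [Nat.even_iff]; omega
  · right; have := hev _ h; omega

end Pool.Agent.Lib_helper65.Book
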