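import Mathlib
import Pool.Agent.Lib_helper65.BookBasic

/-!
# Super edge-magic labelings of books: block descriptions

A labeling is described by finitely many blocks `(x, y, l)`, meaning the pages
`(x + j, y + j)` for `j < l`.
-/

namespace Pool.Agent.Lib_helper65.Book

/-- The list of pages described by the blocks `B 0, ..., B (r - 1)`. -/
def pairs (r : ℕ) (B : ℕ → ℕ × ℕ × ℕ) : List (ℕ × ℕ) :=
  (List.range r).flatMap fun i =>
    (List.range (B i).2.2).map fun j => ((B i).1 + j, (B i).2.1 + j)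

lemma length_pairs (r : ℕ) (B : ℕ → ℕ × ℕ × ℕ) :
    (pairs r B).length = ∑ i ∈ Finset.range r, (B i).2.2 := by
  induction r with
  | zero => simp [pairs]
  | succ r ih =>
    have : pairs (r + 1) B = pairs r B ++
        (List.range (B r).2.2).map fun j => ((B r).1 + j, (B r).2.1 + j) := by
      simp [pairs, List.range_succ]
    rw [this, List.length_append, ih, Finset.sum_range_succ]
    simp

lemma mem_pairs {r : ℕ} {B : ℕ → ℕ × ℕ × ℕ} {i j : ℕ} (hi : i < r) (hj : j < (B i).2.2) :
    ((B i).1 + j, (B i).2.1 + j) ∈ pairs r B := by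
  simp only [pairs, List.mem_flatMap, List.mem_map, List.mem_range]
  exact ⟨i, hi, j, hj, rfl⟩

/-- The `x`-intervals of the blocks with indices in the list cover `[a, e)` consecutively. -/
def ChainX (B : ℕ → ℕ × ℕ × ℕ) : ℕ → List ℕ → ℕ → Prop
  | a, [], e => e ≤ a
  | a, i :: is, e => (B i).1 ≤ a ∧ ChainX B ((B i).1 + (B i).2.2) is e

/-- The `y`-intervals of the blocks with indices in the list cover `[a, e)` consecutively. -/
def ChainY (B : ℕ → ℕ × ℕ × ℕ) : ℕ → List ℕ → ℕ → Prop
  | a, [], e => e ≤ a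
  | a, i :: is, e => (B i).2.1 ≤ a ∧ ChainY B ((B i).2.1 + (B i).2.2) is e

/-- The sums `x + y` of the blocks with indices in the list cover the numbers of `[a, e)` of the
same parity as `a` consecutively. -/
def ChainS (B : ℕ → ℕ × ℕ × ℕ) : ℕ → List ℕ → ℕ → Prop
  | a, [], e => e ≤ a
  | a, i :: is, e => ((B i).1 + (B i).2.1 ≤ a ∧ (a + ((B i).1 + (B i).2.1)) % 2 = 0) ∧
      ChainS B ((B i).1 + (B i).2.1 + 2 * (B i).2.2) is e

lemma ChainX.cover {r : ℕ} {B : ℕ → ℕ × ℕ × ℕ} : ∀ {l : List ℕ} {a e : ℕ},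
    ChainX B a l e → (∀ i ∈ l, i < r) → ∀ t, a ≤ t → t < e → ∃ q ∈ pairs r B, q.1 = t
  | [], a, e, h, _, t, h1, h2 => by
    simp only [ChainX] at h
    omega
  | i :: is, a, e, h, hr, t, h1, h2 => by
    simp only [ChainX] at h
    by_cases hlt : t < (B i).1 + (B i).2.2
    · refine ⟨_, mem_pairs (i := i) (j := t - (B i).1) (hr i (by simp)) (by omega), ?_⟩
      show (B i).1 + (t - (B i).1) = t
      omega
    · exact ChainX.cover h.2 (fun k hk => hr k (by simp [hk])) t (by omega) h2

lemma ChainY.cover {r : ℕ} {B : ℕ → ℕ × ℕ × ℕ} : ∀ {l : List ℕ} {a e : ℕ},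
    ChainY B a l e → (∀ i ∈ l, i < r) → ∀ t, a ≤ t → t < e → ∃ q ∈ pairs r B, q.2 = t
  | [], a, e, h, _, t, h1, h2 => by
    simp only [ChainY] at h
    omega
  | i :: is, a, e, h, hr, t, h1, h2 => by
    simp only [ChainY] at h
    by_cases hlt : t < (B i).2.1 + (B i).2.2
    · refine ⟨_, mem_pairs (i := i) (j := t - (B i).2.1) (hr i (by simp)) (by omega), ?_⟩
      show (B i).2.1 + (t - (B i).2.1) = t
      omega
    · exact ChainY.cover h.2 (fun k hk => hr k (by simp [hk])) t (by omega) h2

lemma ChainS.cover {r : ℕ} {B : ℕ → ℕ × ℕ × ℕ} : ∀ {l : List ℕ} {a e : ℕ},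
    ChainS B a l e → (∀ i ∈ l, i < r) → ∀ t, a ≤ t → t < e → (t + a) % 2 = 0 →
      ∃ q ∈ pairs r B, q.1 + q.2 = t
  | [], a, e, h, _, t, h1, h2, _ => by
    simp only [ChainS] at h
    omega
  | i :: is, a, e, h, hr, t, h1, h2, hp => by
    simp only [ChainS] at h
    by_cases hlt : t < (B i).1 + (B i).2.1 + 2 * (B i).2.2
    · refine ⟨_, mem_pairs (i := i) (j := (t - ((B i).1 + (B i).2.1)) / 2)
        (hr i (by simp)) (by omega), ?_⟩
      show (B i).1 + (t - ((B i).1 + (B i).2.1)) / 2
        + ((B i).2.1 + (t - ((B i).1 + (B i).2.1)) / 2) = t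
      omega
    · exact ChainS.cover h.2 (fun k hk => hr k (by simp [hk])) t (by omega) h2 (by omega)

/-- Boolean check of an explicit labeling. -/
def check (n α β s : ℕ) (L : List (ℕ × ℕ)) : Bool :=
  (L.length == n) &&
  ((List.range (2 * n + 2)).all fun t =>
    (t + 1 == α) || (t + 1 == β) || L.any fun q => (q.1 == t + 1) || (q.2 == t + 1)) &&
  ((List.range (3 * n + 1)).all fun t =>
    (s + t == α + β) || L.any fun q =>
      (α + q.1 == s + t) || (β + q.2 == s + t) || (q.1 + q.2 == s + t))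

lemma of_check (n α β s : ℕ) (L : List (ℕ × ℕ)) (h : check n α β s L = true) :
    IsSuperEdgeMagic (book n) := by
  simp only [check, Bool.and_eq_true, beq_iff_eq, List.all_eq_true, List.mem_range,
    Bool.or_eq_true, List.any_eq_true] at h
  obtain ⟨⟨h1, h2⟩, h3⟩ := h
  refine superEdgeMagic_of_list n α β s L h1 ?_ ?_
  · intro t ht1 ht2
    have := h2 (t - 1) (by omega)
    rcases this with (h | h) | ⟨q, hq, h⟩
    · left; omega
    · right; left; omega
    · right; right
      refine ⟨q, hq, ?_⟩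
      rcases h with h | h
      · left; omega
      · right; omega
  · intro t ht1 ht2
    have := h3 (t - s) (by omega)
    rcases this with h | ⟨q, hq, h⟩
    · left; omega
    · right
      refine ⟨q, hq, ?_⟩
      rcases h with (h | h) | h
      · left; omega
      · right; left; omega
      · right; right; omega

end Pool.Agent.Lib_helper65.Book
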