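import Mathlib
import Pool.Agent.Lib_helper65.BookBlocks

/-!
# Super edge-magic labelings of books: the families for even n
-/

namespace Pool.Agent.Lib_helper65.Book

/-- Block data of the family `E8` (`n = 8 * i + 8`). -/
def BE8 (i : ℕ) : ℕ → ℕ × ℕ × ℕ
  | 0 => (2, 12 * i + 15, i + 1)
  | 1 => (i + 3, 11 * i + 13, i + 1)
  | 2 => (2 * i + 4, 14 * i + 17, 2 * i + 1)
  | 3 => (4 * i + 6, 10 * i + 13, i)
  | 4 => (5 * i + 6, 13 * i + 16, i + 1)
  | 5 => (6 * i + 7, 8 * i + 11, 2 * i + 2)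
  | 6 => (8 * i + 9, 1, 1)
  | 7 => (16 * i + 18, 8 * i + 10, 1)
  | _ => (0, 0, 0)

theorem semE8 (i : ℕ) : IsSuperEdgeMagic (book (8 * i + 8)) := by
  have hlen : (pairs 8 (BE8 i)).length = 8 * i + 8 := by
    rw [length_pairs]
    simp only [Finset.sum_range_succ, Finset.sum_range_zero, BE8]
    omega
  have hx0 : ∀ t, 2 ≤ t → t < 4 * i + 5 → ∃ q ∈ pairs 8 (BE8 i), q.1 = t :=
    ChainX.cover (l := [0, 1, 2]) (by simp only [ChainX, BE8]; omega) (by decide)
  have hx1 : ∀ t, 4 * i + 6 ≤ t → t < 8 * i + 10 → ∃ q ∈ pairs 8 (BE8 i), q.1 = t :=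
    ChainX.cover (l := [3, 4, 5, 6]) (by simp only [ChainX, BE8]; omega) (by decide)
  have hx2 : ∀ t, 16 * i + 18 ≤ t → t < 16 * i + 19 → ∃ q ∈ pairs 8 (BE8 i), q.1 = t :=
    ChainX.cover (l := [7]) (by simp only [ChainX, BE8]; omega) (by decide)
  have hy0 : ∀ t, 1 ≤ t → t < 2 → ∃ q ∈ pairs 8 (BE8 i), q.2 = t :=
    ChainY.cover (l := [6]) (by simp only [ChainY, BE8]; omega) (by decide)
  have hy1 : ∀ t, 8 * i + 10 ≤ t → t < 12 * i + 14 → ∃ q ∈ pairs 8 (BE8 i), q.2 = t :=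
    ChainY.cover (l := [7, 5, 3, 1]) (by simp only [ChainY, BE8]; omega) (by decide)
  have hy2 : ∀ t, 12 * i + 15 ≤ t → t < 16 * i + 18 → ∃ q ∈ pairs 8 (BE8 i), q.2 = t :=
    ChainY.cover (l := [0, 4, 2]) (by simp only [ChainY, BE8]; omega) (by decide)
  have hs00 : ∀ t, 8 * i + 10 ≤ t → t < 8 * i + 12 → (t + (8 * i + 10)) % 2 = 0 →
      ∃ q ∈ pairs 8 (BE8 i), q.1 + q.2 = t :=
    ChainS.cover (l := [6]) (by simp only [ChainS, BE8]; omega) (by decide)
  have hs01 : ∀ t, 12 * i + 16 ≤ t → t < 20 * i + 24 → (t + (12 * i + 16)) % 2 = 0 →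
      ∃ q ∈ pairs 8 (BE8 i), q.1 + q.2 = t :=
    ChainS.cover (l := [1, 5, 4]) (by simp only [ChainS, BE8]; omega) (by decide)
  have hs02 : ∀ t, 24 * i + 28 ≤ t → t < 24 * i + 30 → (t + (24 * i + 28)) % 2 = 0 →
      ∃ q ∈ pairs 8 (BE8 i), q.1 + q.2 = t :=
    ChainS.cover (l := [7]) (by simp only [ChainS, BE8]; omega) (by decide)
  have hs10 : ∀ t, 12 * i + 17 ≤ t → t < 16 * i + 19 → (t + (12 * i + 17)) % 2 = 0 →
      ∃ q ∈ pairs 8 (BE8 i), q.1 + q.2 = t :=
    ChainS.cover (l := [0, 3]) (by simp only [ChainS, BE8]; omega) (by decide)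
  have hs11 : ∀ t, 16 * i + 21 ≤ t → t < 20 * i + 23 → (t + (16 * i + 21)) % 2 = 0 →
      ∃ q ∈ pairs 8 (BE8 i), q.1 + q.2 = t :=
    ChainS.cover (l := [2]) (by simp only [ChainS, BE8]; omega) (by decide)
  refine superEdgeMagic_of_list (8 * i + 8) (4 * i + 5) (12 * i + 14) (4 * i + 7) _ hlen ?_ ?_
  · intro t h1 h2
    rcases Nat.lt_or_ge t (2) with h | h
    · obtain ⟨q, hq, hqt⟩ := hy0 t (by omega) (by omega)
      exact Or.inr (Or.inr ⟨q, hq, Or.inr hqt⟩)
    clear h1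
    rename' h => h1
    rcases Nat.lt_or_ge t (4 * i + 5) with h | h
    · obtain ⟨q, hq, hqt⟩ := hx0 t (by omega) (by omega)
      exact Or.inr (Or.inr ⟨q, hq, Or.inl hqt⟩)
    clear h1
    rename' h => h1
    rcases Nat.lt_or_ge t (4 * i + 6) with h | h
    · exact Or.inl (by omega)
    clear h1
    rename' h => h1
    rcases Nat.lt_or_ge t (8 * i + 10) with h | h
    · obtain ⟨q, hq, hqt⟩ := hx1 t (by omega) (by omega)
      exact Or.inr (Or.inr ⟨q, hq, Or.inl hqt⟩)
    clear h1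
    rename' h => h1
    rcases Nat.lt_or_ge t (12 * i + 14) with h | h
    · obtain ⟨q, hq, hqt⟩ := hy1 t (by omega) (by omega)
      exact Or.inr (Or.inr ⟨q, hq, Or.inr hqt⟩)
    clear h1
    rename' h => h1
    rcases Nat.lt_or_ge t (12 * i + 15) with h | h
    · exact Or.inr (Or.inl (by omega))
    clear h1
    rename' h => h1
    rcases Nat.lt_or_ge t (16 * i + 18) with h | h
    · obtain ⟨q, hq, hqt⟩ := hy2 t (by omega) (by omega)
      exact Or.inr (Or.inr ⟨q, hq, Or.inr hqt⟩)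
    clear h1
    rename' h => h1
    obtain ⟨q, hq, hqt⟩ := hx2 t (by omega) (by omega)
    exact Or.inr (Or.inr ⟨q, hq, Or.inl hqt⟩)
  · intro t h1 h2
    rcases Nat.mod_two_eq_zero_or_one t with hp | hp
    · rcases Nat.lt_or_ge t (8 * i + 10) with h | h
      · obtain ⟨q, hq, hqt⟩ := hx0 (t - (4 * i + 5)) (by omega) (by omega)
        exact Or.inr ⟨q, hq, Or.inl (by omega)⟩
      clear h1
      rename' h => h1
      rcases Nat.lt_or_ge t (8 * i + 12) with h | h
      · obtain ⟨q, hq, hqt⟩ := hs00 t (by omega) (by omega) (by omega)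
        exact Or.inr ⟨q, hq, Or.inr (Or.inr hqt)⟩
      clear h1
      rename' h => h1
      rcases Nat.lt_or_ge t (12 * i + 15) with h | h
      · obtain ⟨q, hq, hqt⟩ := hx1 (t - (4 * i + 5)) (by omega) (by omega)
        exact Or.inr ⟨q, hq, Or.inl (by omega)⟩
      clear h1
      rename' h => h1
      rcases Nat.lt_or_ge t (12 * i + 16) with h | h
      · obtain ⟨q, hq, hqt⟩ := hy0 (t - (12 * i + 14)) (by omega) (by omega)
        exact Or.inr ⟨q, hq, Or.inr (Or.inl (by omega))⟩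
      clear h1
      rename' h => h1
      rcases Nat.lt_or_ge t (20 * i + 24) with h | h
      · obtain ⟨q, hq, hqt⟩ := hs01 t (by omega) (by omega) (by omega)
        exact Or.inr ⟨q, hq, Or.inr (Or.inr hqt)⟩
      clear h1
      rename' h => h1
      rcases Nat.lt_or_ge t (20 * i + 24) with h | h
      · obtain ⟨q, hq, hqt⟩ := hx2 (t - (4 * i + 5)) (by omega) (by omega)
        exact Or.inr ⟨q, hq, Or.inl (by omega)⟩
      clear h1
      rename' h => h1
      rcases Nat.lt_or_ge t (24 * i + 28) with h | h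
      · obtain ⟨q, hq, hqt⟩ := hy1 (t - (12 * i + 14)) (by omega) (by omega)
        exact Or.inr ⟨q, hq, Or.inr (Or.inl (by omega))⟩
      clear h1
      rename' h => h1
      rcases Nat.lt_or_ge t (24 * i + 30) with h | h
      · obtain ⟨q, hq, hqt⟩ := hs02 t (by omega) (by omega) (by omega)
        exact Or.inr ⟨q, hq, Or.inr (Or.inr hqt)⟩
      clear h1
      rename' h => h1
      obtain ⟨q, hq, hqt⟩ := hy2 (t - (12 * i + 14)) (by omega) (by omega)
      exact Or.inr ⟨q, hq, Or.inr (Or.inl (by omega))⟩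
    · rcases Nat.lt_or_ge t (8 * i + 10) with h | h
      · obtain ⟨q, hq, hqt⟩ := hx0 (t - (4 * i + 5)) (by omega) (by omega)
        exact Or.inr ⟨q, hq, Or.inl (by omega)⟩
      clear h1
      rename' h => h1
      rcases Nat.lt_or_ge t (12 * i + 15) with h | h
      · obtain ⟨q, hq, hqt⟩ := hx1 (t - (4 * i + 5)) (by omega) (by omega)
        exact Or.inr ⟨q, hq, Or.inl (by omega)⟩
      clear h1
      rename' h => h1
      rcases Nat.lt_or_ge t (12 * i + 16) with h | h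
      · obtain ⟨q, hq, hqt⟩ := hy0 (t - (12 * i + 14)) (by omega) (by omega)
        exact Or.inr ⟨q, hq, Or.inr (Or.inl (by omega))⟩
      clear h1
      rename' h => h1
      rcases Nat.lt_or_ge t (16 * i + 19) with h | h
      · obtain ⟨q, hq, hqt⟩ := hs10 t (by omega) (by omega) (by omega)
        exact Or.inr ⟨q, hq, Or.inr (Or.inr hqt)⟩
      clear h1
      rename' h => h1
      rcases Nat.lt_or_ge t (16 * i + 20) with h | h
      · exact Or.inl (by omega)
      clear h1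
      rename' h => h1
      rcases Nat.lt_or_ge t (20 * i + 23) with h | h
      · obtain ⟨q, hq, hqt⟩ := hs11 t (by omega) (by omega) (by omega)
        exact Or.inr ⟨q, hq, Or.inr (Or.inr hqt)⟩
      clear h1
      rename' h => h1
      rcases Nat.lt_or_ge t (20 * i + 24) with h | h
      · obtain ⟨q, hq, hqt⟩ := hx2 (t - (4 * i + 5)) (by omega) (by omega)
        exact Or.inr ⟨q, hq, Or.inl (by omega)⟩
      clear h1
      rename' h => h1
      rcases Nat.lt_or_ge t (24 * i + 28) with h | h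
      · obtain ⟨q, hq, hqt⟩ := hy1 (t - (12 * i + 14)) (by omega) (by omega)
        exact Or.inr ⟨q, hq, Or.inr (Or.inl (by omega))⟩
      clear h1
      rename' h => h1
      obtain ⟨q, hq, hqt⟩ := hy2 (t - (12 * i + 14)) (by omega) (by omega)
      exact Or.inr ⟨q, hq, Or.inr (Or.inl (by omega))⟩

/-- Block data of the family `E10` (`n = 8 * i + 10`). -/
def BE10 (i : ℕ) : ℕ → ℕ × ℕ × ℕ
  | 0 => (2, 12 * i + 18, i + 1)
  | 1 => (i + 3, 11 * i + 16, i + 1)
  | 2 => (2 * i + 4, 14 * i + 20, 2 * i + 2)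
  | 3 => (4 * i + 7, 10 * i + 16, i)
  | 4 => (5 * i + 7, 9 * i + 14, 1)
  | 5 => (5 * i + 8, 13 * i + 19, i + 1)
  | 6 => (6 * i + 9, 8 * i + 13, i + 1)
  | 7 => (7 * i + 10, 9 * i + 15, i + 1)
  | 8 => (8 * i + 11, 1, 1)
  | 9 => (16 * i + 22, 8 * i + 12, 1)
  | _ => (0, 0, 0)

theorem semE10 (i : ℕ) : IsSuperEdgeMagic (book (8 * i + 10)) := by
  have hlen : (pairs 10 (BE10 i)).length = 8 * i + 10 := by
    rw [length_pairs]
    simp only [Finset.sum_range_succ, Finset.sum_range_zero, BE10]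
    omega
  have hx0 : ∀ t, 2 ≤ t → t < 4 * i + 6 → ∃ q ∈ pairs 10 (BE10 i), q.1 = t :=
    ChainX.cover (l := [0, 1, 2]) (by simp only [ChainX, BE10]; omega) (by decide)
  have hx1 : ∀ t, 4 * i + 7 ≤ t → t < 8 * i + 12 → ∃ q ∈ pairs 10 (BE10 i), q.1 = t :=
    ChainX.cover (l := [3, 4, 5, 6, 7, 8]) (by simp only [ChainX, BE10]; omega) (by decide)
  have hx2 : ∀ t, 16 * i + 22 ≤ t → t < 16 * i + 23 → ∃ q ∈ pairs 10 (BE10 i), q.1 = t :=
    ChainX.cover (l := [9]) (by simp only [ChainX, BE10]; omega) (by decide)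
  have hy0 : ∀ t, 1 ≤ t → t < 2 → ∃ q ∈ pairs 10 (BE10 i), q.2 = t :=
    ChainY.cover (l := [8]) (by simp only [ChainY, BE10]; omega) (by decide)
  have hy1 : ∀ t, 8 * i + 12 ≤ t → t < 12 * i + 17 → ∃ q ∈ pairs 10 (BE10 i), q.2 = t :=
    ChainY.cover (l := [9, 6, 4, 7, 3, 1]) (by simp only [ChainY, BE10]; omega) (by decide)
  have hy2 : ∀ t, 12 * i + 18 ≤ t → t < 16 * i + 22 → ∃ q ∈ pairs 10 (BE10 i), q.2 = t :=
    ChainY.cover (l := [0, 5, 2]) (by simp only [ChainY, BE10]; omega) (by decide)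
  have hs00 : ∀ t, 8 * i + 12 ≤ t → t < 8 * i + 14 → (t + (8 * i + 12)) % 2 = 0 →
      ∃ q ∈ pairs 10 (BE10 i), q.1 + q.2 = t :=
    ChainS.cover (l := [8]) (by simp only [ChainS, BE10]; omega) (by decide)
  have hs01 : ∀ t, 12 * i + 20 ≤ t → t < 20 * i + 28 → (t + (12 * i + 20)) % 2 = 0 →
      ∃ q ∈ pairs 10 (BE10 i), q.1 + q.2 = t :=
    ChainS.cover (l := [0, 6, 2]) (by simp only [ChainS, BE10]; omega) (by decide)
  have hs02 : ∀ t, 24 * i + 34 ≤ t → t < 24 * i + 36 → (t + (24 * i + 34)) % 2 = 0 →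
      ∃ q ∈ pairs 10 (BE10 i), q.1 + q.2 = t :=
    ChainS.cover (l := [9]) (by simp only [ChainS, BE10]; omega) (by decide)
  have hs10 : ∀ t, 12 * i + 19 ≤ t → t < 16 * i + 23 → (t + (12 * i + 19)) % 2 = 0 →
      ∃ q ∈ pairs 10 (BE10 i), q.1 + q.2 = t :=
    ChainS.cover (l := [1, 4, 3]) (by simp only [ChainS, BE10]; omega) (by decide)
  have hs11 : ∀ t, 16 * i + 25 ≤ t → t < 20 * i + 29 → (t + (16 * i + 25)) % 2 = 0 →
      ∃ q ∈ pairs 10 (BE10 i), q.1 + q.2 = t :=
    ChainS.cover (l := [7, 5]) (by simp only [ChainS, BE10]; omega) (by decide)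
  refine superEdgeMagic_of_list (8 * i + 10) (4 * i + 6) (12 * i + 17) (4 * i + 8) _ hlen ?_ ?_
  · intro t h1 h2
    rcases Nat.lt_or_ge t (2) with h | h
    · obtain ⟨q, hq, hqt⟩ := hy0 t (by omega) (by omega)
      exact Or.inr (Or.inr ⟨q, hq, Or.inr hqt⟩)
    clear h1
    rename' h => h1
    rcases Nat.lt_or_ge t (4 * i + 6) with h | h
    · obtain ⟨q, hq, hqt⟩ := hx0 t (by omega) (by omega)
      exact Or.inr (Or.inr ⟨q, hq, Or.inl hqt⟩)
    clear h1
    rename' h => h1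
    rcases Nat.lt_or_ge t (4 * i + 7) with h | h
    · exact Or.inl (by omega)
    clear h1
    rename' h => h1
    rcases Nat.lt_or_ge t (8 * i + 12) with h | h
    · obtain ⟨q, hq, hqt⟩ := hx1 t (by omega) (by omega)
      exact Or.inr (Or.inr ⟨q, hq, Or.inl hqt⟩)
    clear h1
    rename' h => h1
    rcases Nat.lt_or_ge t (12 * i + 17) with h | h
    · obtain ⟨q, hq, hqt⟩ := hy1 t (by omega) (by omega)
      exact Or.inr (Or.inr ⟨q, hq, Or.inr hqt⟩)
    clear h1
    rename' h => h1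
    rcases Nat.lt_or_ge t (12 * i + 18) with h | h
    · exact Or.inr (Or.inl (by omega))
    clear h1
    rename' h => h1
    rcases Nat.lt_or_ge t (16 * i + 22) with h | h
    · obtain ⟨q, hq, hqt⟩ := hy2 t (by omega) (by omega)
      exact Or.inr (Or.inr ⟨q, hq, Or.inr hqt⟩)
    clear h1
    rename' h => h1
    obtain ⟨q, hq, hqt⟩ := hx2 t (by omega) (by omega)
    exact Or.inr (Or.inr ⟨q, hq, Or.inl hqt⟩)
  · intro t h1 h2
    rcases Nat.mod_two_eq_zero_or_one t with hp | hp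
    · rcases Nat.lt_or_ge t (8 * i + 12) with h | h
      · obtain ⟨q, hq, hqt⟩ := hx0 (t - (4 * i + 6)) (by omega) (by omega)
        exact Or.inr ⟨q, hq, Or.inl (by omega)⟩
      clear h1
      rename' h => h1
      rcases Nat.lt_or_ge t (8 * i + 14) with h | h
      · obtain ⟨q, hq, hqt⟩ := hs00 t (by omega) (by omega) (by omega)
        exact Or.inr ⟨q, hq, Or.inr (Or.inr hqt)⟩
      clear h1
      rename' h => h1
      rcases Nat.lt_or_ge t (12 * i + 18) with h | h
      · obtain ⟨q, hq, hqt⟩ := hx1 (t - (4 * i + 6)) (by omega) (by omega)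
        exact Or.inr ⟨q, hq, Or.inl (by omega)⟩
      clear h1
      rename' h => h1
      rcases Nat.lt_or_ge t (12 * i + 19) with h | h
      · obtain ⟨q, hq, hqt⟩ := hy0 (t - (12 * i + 17)) (by omega) (by omega)
        exact Or.inr ⟨q, hq, Or.inr (Or.inl (by omega))⟩
      clear h1
      rename' h => h1
      rcases Nat.lt_or_ge t (20 * i + 28) with h | h
      · obtain ⟨q, hq, hqt⟩ := hs01 t (by omega) (by omega) (by omega)
        exact Or.inr ⟨q, hq, Or.inr (Or.inr hqt)⟩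
      clear h1
      rename' h => h1
      rcases Nat.lt_or_ge t (20 * i + 29) with h | h
      · obtain ⟨q, hq, hqt⟩ := hx2 (t - (4 * i + 6)) (by omega) (by omega)
        exact Or.inr ⟨q, hq, Or.inl (by omega)⟩
      clear h1
      rename' h => h1
      rcases Nat.lt_or_ge t (24 * i + 34) with h | h
      · obtain ⟨q, hq, hqt⟩ := hy1 (t - (12 * i + 17)) (by omega) (by omega)
        exact Or.inr ⟨q, hq, Or.inr (Or.inl (by omega))⟩
      clear h1
      rename' h => h1
      rcases Nat.lt_or_ge t (24 * i + 36) with h | h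
      · obtain ⟨q, hq, hqt⟩ := hs02 t (by omega) (by omega) (by omega)
        exact Or.inr ⟨q, hq, Or.inr (Or.inr hqt)⟩
      clear h1
      rename' h => h1
      obtain ⟨q, hq, hqt⟩ := hy2 (t - (12 * i + 17)) (by omega) (by omega)
      exact Or.inr ⟨q, hq, Or.inr (Or.inl (by omega))⟩
    · rcases Nat.lt_or_ge t (8 * i + 12) with h | h
      · obtain ⟨q, hq, hqt⟩ := hx0 (t - (4 * i + 6)) (by omega) (by omega)
        exact Or.inr ⟨q, hq, Or.inl (by omega)⟩
      clear h1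
      rename' h => h1
      rcases Nat.lt_or_ge t (12 * i + 18) with h | h
      · obtain ⟨q, hq, hqt⟩ := hx1 (t - (4 * i + 6)) (by omega) (by omega)
        exact Or.inr ⟨q, hq, Or.inl (by omega)⟩
      clear h1
      rename' h => h1
      rcases Nat.lt_or_ge t (12 * i + 19) with h | h
      · obtain ⟨q, hq, hqt⟩ := hy0 (t - (12 * i + 17)) (by omega) (by omega)
        exact Or.inr ⟨q, hq, Or.inr (Or.inl (by omega))⟩
      clear h1
      rename' h => h1
      rcases Nat.lt_or_ge t (16 * i + 23) with h | h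
      · obtain ⟨q, hq, hqt⟩ := hs10 t (by omega) (by omega) (by omega)
        exact Or.inr ⟨q, hq, Or.inr (Or.inr hqt)⟩
      clear h1
      rename' h => h1
      rcases Nat.lt_or_ge t (16 * i + 24) with h | h
      · exact Or.inl (by omega)
      clear h1
      rename' h => h1
      rcases Nat.lt_or_ge t (20 * i + 29) with h | h
      · obtain ⟨q, hq, hqt⟩ := hs11 t (by omega) (by omega) (by omega)
        exact Or.inr ⟨q, hq, Or.inr (Or.inr hqt)⟩
      clear h1
      rename' h => h1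
      rcases Nat.lt_or_ge t (20 * i + 29) with h | h
      · obtain ⟨q, hq, hqt⟩ := hx2 (t - (4 * i + 6)) (by omega) (by omega)
        exact Or.inr ⟨q, hq, Or.inl (by omega)⟩
      clear h1
      rename' h => h1
      rcases Nat.lt_or_ge t (24 * i + 34) with h | h
      · obtain ⟨q, hq, hqt⟩ := hy1 (t - (12 * i + 17)) (by omega) (by omega)
        exact Or.inr ⟨q, hq, Or.inr (Or.inl (by omega))⟩
      clear h1
      rename' h => h1
      obtain ⟨q, hq, hqt⟩ := hy2 (t - (12 * i + 17)) (by omega) (by omega)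
      exact Or.inr ⟨q, hq, Or.inr (Or.inl (by omega))⟩

/-- Block data of the family `E12` (`n = 8 * i + 12`). -/
def BE12 (i : ℕ) : ℕ → ℕ × ℕ × ℕ
  | 0 => (2, 12 * i + 21, i + 2)
  | 1 => (i + 4, 11 * i + 18, i + 1)
  | 2 => (2 * i + 5, 16 * i + 25, 1)
  | 3 => (2 * i + 6, 14 * i + 23, 2 * i + 1)
  | 4 => (4 * i + 8, 16 * i + 24, 1)
  | 5 => (4 * i + 9, 10 * i + 18, i)
  | 6 => (5 * i + 9, 13 * i + 23, i)
  | 7 => (6 * i + 9, 8 * i + 15, 2 * i + 3)
  | 8 => (8 * i + 12, 12 * i + 19, 1)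
  | 9 => (8 * i + 13, 1, 1)
  | 10 => (16 * i + 26, 8 * i + 14, 1)
  | _ => (0, 0, 0)

theorem semE12 (i : ℕ) : IsSuperEdgeMagic (book (8 * i + 12)) := by
  have hlen : (pairs 11 (BE12 i)).length = 8 * i + 12 := by
    rw [length_pairs]
    simp only [Finset.sum_range_succ, Finset.sum_range_zero, BE12]
    omega
  have hx0 : ∀ t, 2 ≤ t → t < 4 * i + 7 → ∃ q ∈ pairs 11 (BE12 i), q.1 = t :=
    ChainX.cover (l := [0, 1, 2, 3]) (by simp only [ChainX, BE12]; omega) (by decide)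
  have hx1 : ∀ t, 4 * i + 8 ≤ t → t < 8 * i + 14 → ∃ q ∈ pairs 11 (BE12 i), q.1 = t :=
    ChainX.cover (l := [4, 5, 6, 7, 8, 9]) (by simp only [ChainX, BE12]; omega) (by decide)
  have hx2 : ∀ t, 16 * i + 26 ≤ t → t < 16 * i + 27 → ∃ q ∈ pairs 11 (BE12 i), q.1 = t :=
    ChainX.cover (l := [10]) (by simp only [ChainX, BE12]; omega) (by decide)
  have hy0 : ∀ t, 1 ≤ t → t < 2 → ∃ q ∈ pairs 11 (BE12 i), q.2 = t :=
    ChainY.cover (l := [9]) (by simp only [ChainY, BE12]; omega) (by decide)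
  have hy1 : ∀ t, 8 * i + 14 ≤ t → t < 12 * i + 20 → ∃ q ∈ pairs 11 (BE12 i), q.2 = t :=
    ChainY.cover (l := [10, 7, 5, 1, 8]) (by simp only [ChainY, BE12]; omega) (by decide)
  have hy2 : ∀ t, 12 * i + 21 ≤ t → t < 16 * i + 26 → ∃ q ∈ pairs 11 (BE12 i), q.2 = t :=
    ChainY.cover (l := [0, 6, 3, 4, 2]) (by simp only [ChainY, BE12]; omega) (by decide)
  have hs00 : ∀ t, 8 * i + 14 ≤ t → t < 8 * i + 16 → (t + (8 * i + 14)) % 2 = 0 →
      ∃ q ∈ pairs 11 (BE12 i), q.1 + q.2 = t :=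
    ChainS.cover (l := [9]) (by simp only [ChainS, BE12]; omega) (by decide)
  have hs01 : ∀ t, 12 * i + 22 ≤ t → t < 20 * i + 34 → (t + (12 * i + 22)) % 2 = 0 →
      ∃ q ∈ pairs 11 (BE12 i), q.1 + q.2 = t :=
    ChainS.cover (l := [1, 7, 2, 6, 4]) (by simp only [ChainS, BE12]; omega) (by decide)
  have hs02 : ∀ t, 24 * i + 40 ≤ t → t < 24 * i + 42 → (t + (24 * i + 40)) % 2 = 0 →
      ∃ q ∈ pairs 11 (BE12 i), q.1 + q.2 = t :=
    ChainS.cover (l := [10]) (by simp only [ChainS, BE12]; omega) (by decide)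
  have hs10 : ∀ t, 12 * i + 23 ≤ t → t < 16 * i + 27 → (t + (12 * i + 23)) % 2 = 0 →
      ∃ q ∈ pairs 11 (BE12 i), q.1 + q.2 = t :=
    ChainS.cover (l := [0, 5]) (by simp only [ChainS, BE12]; omega) (by decide)
  have hs11 : ∀ t, 16 * i + 29 ≤ t → t < 20 * i + 33 → (t + (16 * i + 29)) % 2 = 0 →
      ∃ q ∈ pairs 11 (BE12 i), q.1 + q.2 = t :=
    ChainS.cover (l := [3, 8]) (by simp only [ChainS, BE12]; omega) (by decide)
  refine superEdgeMagic_of_list (8 * i + 12) (4 * i + 7) (12 * i + 20) (4 * i + 9) _ hlen ?_ ?_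
  · intro t h1 h2
    rcases Nat.lt_or_ge t (2) with h | h
    · obtain ⟨q, hq, hqt⟩ := hy0 t (by omega) (by omega)
      exact Or.inr (Or.inr ⟨q, hq, Or.inr hqt⟩)
    clear h1
    rename' h => h1
    rcases Nat.lt_or_ge t (4 * i + 7) with h | h
    · obtain ⟨q, hq, hqt⟩ := hx0 t (by omega) (by omega)
      exact Or.inr (Or.inr ⟨q, hq, Or.inl hqt⟩)
    clear h1
    rename' h => h1
    rcases Nat.lt_or_ge t (4 * i + 8) with h | h
    · exact Or.inl (by omega)
    clear h1
    rename' h => h1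
    rcases Nat.lt_or_ge t (8 * i + 14) with h | h
    · obtain ⟨q, hq, hqt⟩ := hx1 t (by omega) (by omega)
      exact Or.inr (Or.inr ⟨q, hq, Or.inl hqt⟩)
    clear h1
    rename' h => h1
    rcases Nat.lt_or_ge t (12 * i + 20) with h | h
    · obtain ⟨q, hq, hqt⟩ := hy1 t (by omega) (by omega)
      exact Or.inr (Or.inr ⟨q, hq, Or.inr hqt⟩)
    clear h1
    rename' h => h1
    rcases Nat.lt_or_ge t (12 * i + 21) with h | h
    · exact Or.inr (Or.inl (by omega))
    clear h1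
    rename' h => h1
    rcases Nat.lt_or_ge t (16 * i + 26) with h | h
    · obtain ⟨q, hq, hqt⟩ := hy2 t (by omega) (by omega)
      exact Or.inr (Or.inr ⟨q, hq, Or.inr hqt⟩)
    clear h1
    rename' h => h1
    obtain ⟨q, hq, hqt⟩ := hx2 t (by omega) (by omega)
    exact Or.inr (Or.inr ⟨q, hq, Or.inl hqt⟩)
  · intro t h1 h2
    rcases Nat.mod_two_eq_zero_or_one t with hp | hp
    · rcases Nat.lt_or_ge t (8 * i + 14) with h | h
      · obtain ⟨q, hq, hqt⟩ := hx0 (t - (4 * i + 7)) (by omega) (by omega)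
        exact Or.inr ⟨q, hq, Or.inl (by omega)⟩
      clear h1
      rename' h => h1
      rcases Nat.lt_or_ge t (8 * i + 16) with h | h
      · obtain ⟨q, hq, hqt⟩ := hs00 t (by omega) (by omega) (by omega)
        exact Or.inr ⟨q, hq, Or.inr (Or.inr hqt)⟩
      clear h1
      rename' h => h1
      rcases Nat.lt_or_ge t (12 * i + 21) with h | h
      · obtain ⟨q, hq, hqt⟩ := hx1 (t - (4 * i + 7)) (by omega) (by omega)
        exact Or.inr ⟨q, hq, Or.inl (by omega)⟩
      clear h1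
      rename' h => h1
      rcases Nat.lt_or_ge t (12 * i + 22) with h | h
      · obtain ⟨q, hq, hqt⟩ := hy0 (t - (12 * i + 20)) (by omega) (by omega)
        exact Or.inr ⟨q, hq, Or.inr (Or.inl (by omega))⟩
      clear h1
      rename' h => h1
      rcases Nat.lt_or_ge t (20 * i + 34) with h | h
      · obtain ⟨q, hq, hqt⟩ := hs01 t (by omega) (by omega) (by omega)
        exact Or.inr ⟨q, hq, Or.inr (Or.inr hqt)⟩
      clear h1
      rename' h => h1
      rcases Nat.lt_or_ge t (20 * i + 34) with h | h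
      · obtain ⟨q, hq, hqt⟩ := hx2 (t - (4 * i + 7)) (by omega) (by omega)
        exact Or.inr ⟨q, hq, Or.inl (by omega)⟩
      clear h1
      rename' h => h1
      rcases Nat.lt_or_ge t (24 * i + 40) with h | h
      · obtain ⟨q, hq, hqt⟩ := hy1 (t - (12 * i + 20)) (by omega) (by omega)
        exact Or.inr ⟨q, hq, Or.inr (Or.inl (by omega))⟩
      clear h1
      rename' h => h1
      rcases Nat.lt_or_ge t (24 * i + 42) with h | h
      · obtain ⟨q, hq, hqt⟩ := hs02 t (by omega) (by omega) (by omega)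
        exact Or.inr ⟨q, hq, Or.inr (Or.inr hqt)⟩
      clear h1
      rename' h => h1
      obtain ⟨q, hq, hqt⟩ := hy2 (t - (12 * i + 20)) (by omega) (by omega)
      exact Or.inr ⟨q, hq, Or.inr (Or.inl (by omega))⟩
    · rcases Nat.lt_or_ge t (8 * i + 14) with h | h
      · obtain ⟨q, hq, hqt⟩ := hx0 (t - (4 * i + 7)) (by omega) (by omega)
        exact Or.inr ⟨q, hq, Or.inl (by omega)⟩
      clear h1
      rename' h => h1
      rcases Nat.lt_or_ge t (12 * i + 21) with h | h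
      · obtain ⟨q, hq, hqt⟩ := hx1 (t - (4 * i + 7)) (by omega) (by omega)
        exact Or.inr ⟨q, hq, Or.inl (by omega)⟩
      clear h1
      rename' h => h1
      rcases Nat.lt_or_ge t (12 * i + 22) with h | h
      · obtain ⟨q, hq, hqt⟩ := hy0 (t - (12 * i + 20)) (by omega) (by omega)
        exact Or.inr ⟨q, hq, Or.inr (Or.inl (by omega))⟩
      clear h1
      rename' h => h1
      rcases Nat.lt_or_ge t (16 * i + 27) with h | h
      · obtain ⟨q, hq, hqt⟩ := hs10 t (by omega) (by omega) (by omega)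
        exact Or.inr ⟨q, hq, Or.inr (Or.inr hqt)⟩
      clear h1
      rename' h => h1
      rcases Nat.lt_or_ge t (16 * i + 28) with h | h
      · exact Or.inl (by omega)
      clear h1
      rename' h => h1
      rcases Nat.lt_or_ge t (20 * i + 33) with h | h
      · obtain ⟨q, hq, hqt⟩ := hs11 t (by omega) (by omega) (by omega)
        exact Or.inr ⟨q, hq, Or.inr (Or.inr hqt)⟩
      clear h1
      rename' h => h1
      rcases Nat.lt_or_ge t (20 * i + 34) with h | h
      · obtain ⟨q, hq, hqt⟩ := hx2 (t - (4 * i + 7)) (by omega) (by omega)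
        exact Or.inr ⟨q, hq, Or.inl (by omega)⟩
      clear h1
      rename' h => h1
      rcases Nat.lt_or_ge t (24 * i + 40) with h | h
      · obtain ⟨q, hq, hqt⟩ := hy1 (t - (12 * i + 20)) (by omega) (by omega)
        exact Or.inr ⟨q, hq, Or.inr (Or.inl (by omega))⟩
      clear h1
      rename' h => h1
      obtain ⟨q, hq, hqt⟩ := hy2 (t - (12 * i + 20)) (by omega) (by omega)
      exact Or.inr ⟨q, hq, Or.inr (Or.inl (by omega))⟩

/-- Block data of the family `E14` (`n = 8 * i + 14`). -/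
def BE14 (i : ℕ) : ℕ → ℕ × ℕ × ℕ
  | 0 => (2, 12 * i + 24, i + 2)
  | 1 => (i + 4, 11 * i + 21, i + 1)
  | 2 => (2 * i + 5, 14 * i + 28, 2 * i + 2)
  | 3 => (4 * i + 7, 14 * i + 27, 1)
  | 4 => (4 * i + 9, 10 * i + 20, i + 1)
  | 5 => (5 * i + 10, 13 * i + 26, i)
  | 6 => (6 * i + 10, 8 * i + 17, 1)
  | 7 => (6 * i + 11, 14 * i + 26, 1)
  | 8 => (6 * i + 12, 8 * i + 18, 2 * i + 2)
  | 9 => (8 * i + 14, 12 * i + 22, 1)
  | 10 => (8 * i + 15, 1, 1)
  | 11 => (16 * i + 30, 8 * i + 16, 1)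
  | _ => (0, 0, 0)

theorem semE14 (i : ℕ) : IsSuperEdgeMagic (book (8 * i + 14)) := by
  have hlen : (pairs 12 (BE14 i)).length = 8 * i + 14 := by
    rw [length_pairs]
    simp only [Finset.sum_range_succ, Finset.sum_range_zero, BE14]
    omega
  have hx0 : ∀ t, 2 ≤ t → t < 4 * i + 8 → ∃ q ∈ pairs 12 (BE14 i), q.1 = t :=
    ChainX.cover (l := [0, 1, 2, 3]) (by simp only [ChainX, BE14]; omega) (by decide)
  have hx1 : ∀ t, 4 * i + 9 ≤ t → t < 8 * i + 16 → ∃ q ∈ pairs 12 (BE14 i), q.1 = t :=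
    ChainX.cover (l := [4, 5, 6, 7, 8, 9, 10]) (by simp only [ChainX, BE14]; omega) (by decide)
  have hx2 : ∀ t, 16 * i + 30 ≤ t → t < 16 * i + 31 → ∃ q ∈ pairs 12 (BE14 i), q.1 = t :=
    ChainX.cover (l := [11]) (by simp only [ChainX, BE14]; omega) (by decide)
  have hy0 : ∀ t, 1 ≤ t → t < 2 → ∃ q ∈ pairs 12 (BE14 i), q.2 = t :=
    ChainY.cover (l := [10]) (by simp only [ChainY, BE14]; omega) (by decide)
  have hy1 : ∀ t, 8 * i + 16 ≤ t → t < 12 * i + 23 → ∃ q ∈ pairs 12 (BE14 i), q.2 = t :=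
    ChainY.cover (l := [11, 6, 8, 4, 1, 9]) (by simp only [ChainY, BE14]; omega) (by decide)
  have hy2 : ∀ t, 12 * i + 24 ≤ t → t < 16 * i + 30 → ∃ q ∈ pairs 12 (BE14 i), q.2 = t :=
    ChainY.cover (l := [0, 5, 7, 3, 2]) (by simp only [ChainY, BE14]; omega) (by decide)
  have hs00 : ∀ t, 8 * i + 16 ≤ t → t < 8 * i + 18 → (t + (8 * i + 16)) % 2 = 0 →
      ∃ q ∈ pairs 12 (BE14 i), q.1 + q.2 = t :=
    ChainS.cover (l := [10]) (by simp only [ChainS, BE14]; omega) (by decide)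
  have hs01 : ∀ t, 12 * i + 26 ≤ t → t < 20 * i + 38 → (t + (12 * i + 26)) % 2 = 0 →
      ∃ q ∈ pairs 12 (BE14 i), q.1 + q.2 = t :=
    ChainS.cover (l := [0, 8, 3, 5, 9]) (by simp only [ChainS, BE14]; omega) (by decide)
  have hs02 : ∀ t, 24 * i + 46 ≤ t → t < 24 * i + 48 → (t + (24 * i + 46)) % 2 = 0 →
      ∃ q ∈ pairs 12 (BE14 i), q.1 + q.2 = t :=
    ChainS.cover (l := [11]) (by simp only [ChainS, BE14]; omega) (by decide)
  have hs10 : ∀ t, 12 * i + 25 ≤ t → t < 16 * i + 31 → (t + (12 * i + 25)) % 2 = 0 →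
      ∃ q ∈ pairs 12 (BE14 i), q.1 + q.2 = t :=
    ChainS.cover (l := [1, 6, 4]) (by simp only [ChainS, BE14]; omega) (by decide)
  have hs11 : ∀ t, 16 * i + 33 ≤ t → t < 20 * i + 39 → (t + (16 * i + 33)) % 2 = 0 →
      ∃ q ∈ pairs 12 (BE14 i), q.1 + q.2 = t :=
    ChainS.cover (l := [2, 7]) (by simp only [ChainS, BE14]; omega) (by decide)
  refine superEdgeMagic_of_list (8 * i + 14) (4 * i + 8) (12 * i + 23) (4 * i + 10) _ hlen ?_ ?_
  · intro t h1 h2
    rcases Nat.lt_or_ge t (2) with h | h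
    · obtain ⟨q, hq, hqt⟩ := hy0 t (by omega) (by omega)
      exact Or.inr (Or.inr ⟨q, hq, Or.inr hqt⟩)
    clear h1
    rename' h => h1
    rcases Nat.lt_or_ge t (4 * i + 8) with h | h
    · obtain ⟨q, hq, hqt⟩ := hx0 t (by omega) (by omega)
      exact Or.inr (Or.inr ⟨q, hq, Or.inl hqt⟩)
    clear h1
    rename' h => h1
    rcases Nat.lt_or_ge t (4 * i + 9) with h | h
    · exact Or.inl (by omega)
    clear h1
    rename' h => h1
    rcases Nat.lt_or_ge t (8 * i + 16) with h | h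
    · obtain ⟨q, hq, hqt⟩ := hx1 t (by omega) (by omega)
      exact Or.inr (Or.inr ⟨q, hq, Or.inl hqt⟩)
    clear h1
    rename' h => h1
    rcases Nat.lt_or_ge t (12 * i + 23) with h | h
    · obtain ⟨q, hq, hqt⟩ := hy1 t (by omega) (by omega)
      exact Or.inr (Or.inr ⟨q, hq, Or.inr hqt⟩)
    clear h1
    rename' h => h1
    rcases Nat.lt_or_ge t (12 * i + 24) with h | h
    · exact Or.inr (Or.inl (by omega))
    clear h1
    rename' h => h1
    rcases Nat.lt_or_ge t (16 * i + 30) with h | h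
    · obtain ⟨q, hq, hqt⟩ := hy2 t (by omega) (by omega)
      exact Or.inr (Or.inr ⟨q, hq, Or.inr hqt⟩)
    clear h1
    rename' h => h1
    obtain ⟨q, hq, hqt⟩ := hx2 t (by omega) (by omega)
    exact Or.inr (Or.inr ⟨q, hq, Or.inl hqt⟩)
  · intro t h1 h2
    rcases Nat.mod_two_eq_zero_or_one t with hp | hp
    · rcases Nat.lt_or_ge t (8 * i + 16) with h | h
      · obtain ⟨q, hq, hqt⟩ := hx0 (t - (4 * i + 8)) (by omega) (by omega)
        exact Or.inr ⟨q, hq, Or.inl (by omega)⟩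
      clear h1
      rename' h => h1
      rcases Nat.lt_or_ge t (8 * i + 18) with h | h
      · obtain ⟨q, hq, hqt⟩ := hs00 t (by omega) (by omega) (by omega)
        exact Or.inr ⟨q, hq, Or.inr (Or.inr hqt)⟩
      clear h1
      rename' h => h1
      rcases Nat.lt_or_ge t (12 * i + 24) with h | h
      · obtain ⟨q, hq, hqt⟩ := hx1 (t - (4 * i + 8)) (by omega) (by omega)
        exact Or.inr ⟨q, hq, Or.inl (by omega)⟩
      clear h1
      rename' h => h1
      rcases Nat.lt_or_ge t (12 * i + 25) with h | h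
      · obtain ⟨q, hq, hqt⟩ := hy0 (t - (12 * i + 23)) (by omega) (by omega)
        exact Or.inr ⟨q, hq, Or.inr (Or.inl (by omega))⟩
      clear h1
      rename' h => h1
      rcases Nat.lt_or_ge t (20 * i + 38) with h | h
      · obtain ⟨q, hq, hqt⟩ := hs01 t (by omega) (by omega) (by omega)
        exact Or.inr ⟨q, hq, Or.inr (Or.inr hqt)⟩
      clear h1
      rename' h => h1
      rcases Nat.lt_or_ge t (20 * i + 39) with h | h
      · obtain ⟨q, hq, hqt⟩ := hx2 (t - (4 * i + 8)) (by omega) (by omega)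
        exact Or.inr ⟨q, hq, Or.inl (by omega)⟩
      clear h1
      rename' h => h1
      rcases Nat.lt_or_ge t (24 * i + 46) with h | h
      · obtain ⟨q, hq, hqt⟩ := hy1 (t - (12 * i + 23)) (by omega) (by omega)
        exact Or.inr ⟨q, hq, Or.inr (Or.inl (by omega))⟩
      clear h1
      rename' h => h1
      rcases Nat.lt_or_ge t (24 * i + 48) with h | h
      · obtain ⟨q, hq, hqt⟩ := hs02 t (by omega) (by omega) (by omega)
        exact Or.inr ⟨q, hq, Or.inr (Or.inr hqt)⟩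
      clear h1
      rename' h => h1
      obtain ⟨q, hq, hqt⟩ := hy2 (t - (12 * i + 23)) (by omega) (by omega)
      exact Or.inr ⟨q, hq, Or.inr (Or.inl (by omega))⟩
    · rcases Nat.lt_or_ge t (8 * i + 16) with h | h
      · obtain ⟨q, hq, hqt⟩ := hx0 (t - (4 * i + 8)) (by omega) (by omega)
        exact Or.inr ⟨q, hq, Or.inl (by omega)⟩
      clear h1
      rename' h => h1
      rcases Nat.lt_or_ge t (12 * i + 24) with h | h
      · obtain ⟨q, hq, hqt⟩ := hx1 (t - (4 * i + 8)) (by omega) (by omega)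
        exact Or.inr ⟨q, hq, Or.inl (by omega)⟩
      clear h1
      rename' h => h1
      rcases Nat.lt_or_ge t (12 * i + 25) with h | h
      · obtain ⟨q, hq, hqt⟩ := hy0 (t - (12 * i + 23)) (by omega) (by omega)
        exact Or.inr ⟨q, hq, Or.inr (Or.inl (by omega))⟩
      clear h1
      rename' h => h1
      rcases Nat.lt_or_ge t (16 * i + 31) with h | h
      · obtain ⟨q, hq, hqt⟩ := hs10 t (by omega) (by omega) (by omega)
        exact Or.inr ⟨q, hq, Or.inr (Or.inr hqt)⟩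
      clear h1
      rename' h => h1
      rcases Nat.lt_or_ge t (16 * i + 32) with h | h
      · exact Or.inl (by omega)
      clear h1
      rename' h => h1
      rcases Nat.lt_or_ge t (20 * i + 39) with h | h
      · obtain ⟨q, hq, hqt⟩ := hs11 t (by omega) (by omega) (by omega)
        exact Or.inr ⟨q, hq, Or.inr (Or.inr hqt)⟩
      clear h1
      rename' h => h1
      rcases Nat.lt_or_ge t (20 * i + 39) with h | h
      · obtain ⟨q, hq, hqt⟩ := hx2 (t - (4 * i + 8)) (by omega) (by omega)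
        exact Or.inr ⟨q, hq, Or.inl (by omega)⟩
      clear h1
      rename' h => h1
      rcases Nat.lt_or_ge t (24 * i + 46) with h | h
      · obtain ⟨q, hq, hqt⟩ := hy1 (t - (12 * i + 23)) (by omega) (by omega)
        exact Or.inr ⟨q, hq, Or.inr (Or.inl (by omega))⟩
      clear h1
      rename' h => h1
      obtain ⟨q, hq, hqt⟩ := hy2 (t - (12 * i + 23)) (by omega) (by omega)
      exact Or.inr ⟨q, hq, Or.inr (Or.inl (by omega))⟩

end Pool.Agent.Lib_helper65.Book
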