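import Mathlib
import Pool.Agent.Lib_helper65.BookBlocks

/-!
# Super edge-magic labelings of books: the family OE for n = 5 mod 8
-/

namespace Pool.Agent.Lib_helper65.Book

/-- Block data of the family `OE` (`n = 16 * i + 69`). -/
def BOE (i : ℕ) : ℕ → ℕ × ℕ × ℕ
  | 0 => (2 * i + 10, 12 * i + 55, 2 * i + 9)
  | 1 => (4 * i + 20, 10 * i + 46, 2 * i + 9)
  | 2 => (6 * i + 29, 18 * i + 78, i + 4)
  | 3 => (7 * i + 34, 19 * i + 83, i + 3)
  | 4 => (8 * i + 37, 1, 1)
  | 5 => (24 * i + 104, 2, 2 * i + 8)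
  | 6 => (7 * i + 33, 31 * i + 133, 1)
  | 7 => (8 * i + 38, 30 * i + 130, 2)
  | 8 => (8 * i + 40, 28 * i + 123, 2 * i + 6)
  | 9 => (14 * i + 64, 22 * i + 98, i + 2)
  | 10 => (15 * i + 66, 31 * i + 136, 1)
  | 11 => (15 * i + 67, 31 * i + 132, 1)
  | 12 => (15 * i + 68, 21 * i + 93, 1)
  | 13 => (15 * i + 69, 31 * i + 134, 2)
  | 14 => (15 * i + 71, 23 * i + 101, i + 1)
  | 15 => (16 * i + 72, 32 * i + 140, 1)
  | 16 => (16 * i + 73, 20 * i + 87, 1)
  | 17 => (16 * i + 74, 30 * i + 132, i)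
  | 18 => (17 * i + 74, 31 * i + 137, i + 3)
  | 19 => (18 * i + 77, 30 * i + 129, 1)
  | 20 => (24 * i + 103, 20 * i + 89, 1)
  | 21 => (26 * i + 112, 20 * i + 88, 1)
  | 22 => (26 * i + 113, 22 * i + 97, 1)
  | 23 => (26 * i + 114, 20 * i + 90, 1)
  | 24 => (26 * i + 115, 24 * i + 102, 1)
  | 25 => (26 * i + 116, 20 * i + 91, i + 2)
  | 26 => (27 * i + 118, 23 * i + 100, 1)
  | 27 => (27 * i + 119, 19 * i + 82, 1)
  | 28 => (27 * i + 120, 21 * i + 94, i + 2)
  | 29 => (28 * i + 122, 20 * i + 86, 1)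
  | _ => (0, 0, 0)

theorem semOE (i : ℕ) : IsSuperEdgeMagic (book (16 * i + 69)) := by
  have hlen : (pairs 30 (BOE i)).length = 16 * i + 69 := by
    rw [length_pairs]
    simp only [Finset.sum_range_succ, Finset.sum_range_zero, BOE]
    omega
  have hx0 : ∀ t, 2 * i + 10 ≤ t → t < 4 * i + 19 → ∃ q ∈ pairs 30 (BOE i), q.1 = t :=
    ChainX.cover (l := [0]) (by simp only [ChainX, BOE]; omega) (by decide)
  have hx1 : ∀ t, 4 * i + 20 ≤ t → t < 10 * i + 46 → ∃ q ∈ pairs 30 (BOE i), q.1 = t :=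
    ChainX.cover (l := [1, 2, 6, 3, 4, 7, 8]) (by simp only [ChainX, BOE]; omega) (by decide)
  have hx2 : ∀ t, 14 * i + 64 ≤ t → t < 18 * i + 78 → ∃ q ∈ pairs 30 (BOE i), q.1 = t :=
    ChainX.cover (l := [9, 10, 11, 12, 13, 14, 15, 16, 17, 18, 19]) (by simp only [ChainX, BOE]; omega) (by decide)
  have hx3 : ∀ t, 24 * i + 103 ≤ t → t < 28 * i + 123 → ∃ q ∈ pairs 30 (BOE i), q.1 = t :=
    ChainX.cover (l := [20, 5, 21, 22, 23, 24, 25, 26, 27, 28, 29]) (by simp only [ChainX, BOE]; omega) (by decide)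
  have hy0 : ∀ t, 1 ≤ t → t < 2 * i + 10 → ∃ q ∈ pairs 30 (BOE i), q.2 = t :=
    ChainY.cover (l := [4, 5]) (by simp only [ChainY, BOE]; omega) (by decide)
  have hy1 : ∀ t, 10 * i + 46 ≤ t → t < 14 * i + 64 → ∃ q ∈ pairs 30 (BOE i), q.2 = t :=
    ChainY.cover (l := [1, 0]) (by simp only [ChainY, BOE]; omega) (by decide)
  have hy2 : ∀ t, 18 * i + 78 ≤ t → t < 22 * i + 96 → ∃ q ∈ pairs 30 (BOE i), q.2 = t :=
    ChainY.cover (l := [2, 27, 3, 29, 16, 21, 20, 23, 25, 12, 28]) (by simp only [ChainY, BOE]; omega) (by decide)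
  have hy3 : ∀ t, 22 * i + 97 ≤ t → t < 24 * i + 103 → ∃ q ∈ pairs 30 (BOE i), q.2 = t :=
    ChainY.cover (l := [22, 9, 26, 14, 24]) (by simp only [ChainY, BOE]; omega) (by decide)
  have hy4 : ∀ t, 28 * i + 123 ≤ t → t < 32 * i + 141 → ∃ q ∈ pairs 30 (BOE i), q.2 = t :=
    ChainY.cover (l := [8, 19, 7, 17, 11, 6, 13, 10, 18, 15]) (by simp only [ChainY, BOE]; omega) (by decide)
  have hs00 : ∀ t, 8 * i + 38 ≤ t → t < 8 * i + 40 → (t + (8 * i + 38)) % 2 = 0 →
      ∃ q ∈ pairs 30 (BOE i), q.1 + q.2 = t :=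
    ChainS.cover (l := [4]) (by simp only [ChainS, BOE]; omega) (by decide)
  have hs01 : ∀ t, 14 * i + 66 ≤ t → t < 18 * i + 84 → (t + (14 * i + 66)) % 2 = 0 →
      ∃ q ∈ pairs 30 (BOE i), q.1 + q.2 = t :=
    ChainS.cover (l := [1]) (by simp only [ChainS, BOE]; omega) (by decide)
  have hs02 : ∀ t, 24 * i + 106 ≤ t → t < 28 * i + 122 → (t + (24 * i + 106)) % 2 = 0 →
      ∃ q ∈ pairs 30 (BOE i), q.1 + q.2 = t :=
    ChainS.cover (l := [5]) (by simp only [ChainS, BOE]; omega) (by decide)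
  have hs03 : ∀ t, 36 * i + 160 ≤ t → t < 40 * i + 174 → (t + (36 * i + 160)) % 2 = 0 →
      ∃ q ∈ pairs 30 (BOE i), q.1 + q.2 = t :=
    ChainS.cover (l := [16, 9, 6, 7, 14]) (by simp only [ChainS, BOE]; omega) (by decide)
  have hs04 : ∀ t, 44 * i + 192 ≤ t → t < 44 * i + 194 → (t + (44 * i + 192)) % 2 = 0 →
      ∃ q ∈ pairs 30 (BOE i), q.1 + q.2 = t :=
    ChainS.cover (l := [20]) (by simp only [ChainS, BOE]; omega) (by decide)
  have hs05 : ∀ t, 46 * i + 200 ≤ t → t < 50 * i + 220 → (t + (46 * i + 200)) % 2 = 0 →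
      ∃ q ∈ pairs 30 (BOE i), q.1 + q.2 = t :=
    ChainS.cover (l := [21, 10, 23, 17, 19, 29, 22, 15, 28, 26]) (by simp only [ChainS, BOE]; omega) (by decide)
  have hs10 : ∀ t, 14 * i + 65 ≤ t → t < 18 * i + 83 → (t + (14 * i + 65)) % 2 = 0 →
      ∃ q ∈ pairs 30 (BOE i), q.1 + q.2 = t :=
    ChainS.cover (l := [0]) (by simp only [ChainS, BOE]; omega) (by decide)
  have hs11 : ∀ t, 24 * i + 107 ≤ t → t < 26 * i + 115 → (t + (24 * i + 107)) % 2 = 0 →
      ∃ q ∈ pairs 30 (BOE i), q.1 + q.2 = t :=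
    ChainS.cover (l := [2]) (by simp only [ChainS, BOE]; omega) (by decide)
  have hs12 : ∀ t, 26 * i + 117 ≤ t → t < 28 * i + 123 → (t + (26 * i + 117)) % 2 = 0 →
      ∃ q ∈ pairs 30 (BOE i), q.1 + q.2 = t :=
    ChainS.cover (l := [3]) (by simp only [ChainS, BOE]; omega) (by decide)
  have hs13 : ∀ t, 36 * i + 161 ≤ t → t < 40 * i + 175 → (t + (36 * i + 161)) % 2 = 0 →
      ∃ q ∈ pairs 30 (BOE i), q.1 + q.2 = t :=
    ChainS.cover (l := [12, 8]) (by simp only [ChainS, BOE]; omega) (by decide)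
  have hs14 : ∀ t, 46 * i + 199 ≤ t → t < 50 * i + 219 → (t + (46 * i + 199)) % 2 = 0 →
      ∃ q ∈ pairs 30 (BOE i), q.1 + q.2 = t :=
    ChainS.cover (l := [11, 27, 13, 25, 18, 24]) (by simp only [ChainS, BOE]; omega) (by decide)
  refine superEdgeMagic_of_list (16 * i + 69) (4 * i + 19) (22 * i + 96) (6 * i + 29) _ hlen ?_ ?_
  · intro t h1 h2
    rcases Nat.lt_or_ge t (2 * i + 10) with h | h
    · obtain ⟨q, hq, hqt⟩ := hy0 t (by omega) (by omega)
      exact Or.inr (Or.inr ⟨q, hq, Or.inr hqt⟩)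
    clear h1
    rename' h => h1
    rcases Nat.lt_or_ge t (4 * i + 19) with h | h
    · obtain ⟨q, hq, hqt⟩ := hx0 t (by omega) (by omega)
      exact Or.inr (Or.inr ⟨q, hq, Or.inl hqt⟩)
    clear h1
    rename' h => h1
    rcases Nat.lt_or_ge t (4 * i + 20) with h | h
    · exact Or.inl (by omega)
    clear h1
    rename' h => h1
    rcases Nat.lt_or_ge t (10 * i + 46) with h | h
    · obtain ⟨q, hq, hqt⟩ := hx1 t (by omega) (by omega)
      exact Or.inr (Or.inr ⟨q, hq, Or.inl hqt⟩)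
    clear h1
    rename' h => h1
    rcases Nat.lt_or_ge t (14 * i + 64) with h | h
    · obtain ⟨q, hq, hqt⟩ := hy1 t (by omega) (by omega)
      exact Or.inr (Or.inr ⟨q, hq, Or.inr hqt⟩)
    clear h1
    rename' h => h1
    rcases Nat.lt_or_ge t (18 * i + 78) with h | h
    · obtain ⟨q, hq, hqt⟩ := hx2 t (by omega) (by omega)
      exact Or.inr (Or.inr ⟨q, hq, Or.inl hqt⟩)
    clear h1
    rename' h => h1
    rcases Nat.lt_or_ge t (22 * i + 96) with h | h
    · obtain ⟨q, hq, hqt⟩ := hy2 t (by omega) (by omega)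
      exact Or.inr (Or.inr ⟨q, hq, Or.inr hqt⟩)
    clear h1
    rename' h => h1
    rcases Nat.lt_or_ge t (22 * i + 97) with h | h
    · exact Or.inr (Or.inl (by omega))
    clear h1
    rename' h => h1
    rcases Nat.lt_or_ge t (24 * i + 103) with h | h
    · obtain ⟨q, hq, hqt⟩ := hy3 t (by omega) (by omega)
      exact Or.inr (Or.inr ⟨q, hq, Or.inr hqt⟩)
    clear h1
    rename' h => h1
    rcases Nat.lt_or_ge t (28 * i + 123) with h | h
    · obtain ⟨q, hq, hqt⟩ := hx3 t (by omega) (by omega)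
      exact Or.inr (Or.inr ⟨q, hq, Or.inl hqt⟩)
    clear h1
    rename' h => h1
    obtain ⟨q, hq, hqt⟩ := hy4 t (by omega) (by omega)
    exact Or.inr (Or.inr ⟨q, hq, Or.inr hqt⟩)
  · intro t h1 h2
    rcases Nat.mod_two_eq_zero_or_one t with hp | hp
    · rcases Nat.lt_or_ge t (8 * i + 38) with h | h
      · obtain ⟨q, hq, hqt⟩ := hx0 (t - (4 * i + 19)) (by omega) (by omega)
        exact Or.inr ⟨q, hq, Or.inl (by omega)⟩
      clear h1
      rename' h => h1
      rcases Nat.lt_or_ge t (8 * i + 40) with h | h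
      · obtain ⟨q, hq, hqt⟩ := hs00 t (by omega) (by omega) (by omega)
        exact Or.inr ⟨q, hq, Or.inr (Or.inr hqt)⟩
      clear h1
      rename' h => h1
      rcases Nat.lt_or_ge t (14 * i + 65) with h | h
      · obtain ⟨q, hq, hqt⟩ := hx1 (t - (4 * i + 19)) (by omega) (by omega)
        exact Or.inr ⟨q, hq, Or.inl (by omega)⟩
      clear h1
      rename' h => h1
      rcases Nat.lt_or_ge t (18 * i + 84) with h | h
      · obtain ⟨q, hq, hqt⟩ := hs01 t (by omega) (by omega) (by omega)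
        exact Or.inr ⟨q, hq, Or.inr (Or.inr hqt)⟩
      clear h1
      rename' h => h1
      rcases Nat.lt_or_ge t (22 * i + 97) with h | h
      · obtain ⟨q, hq, hqt⟩ := hx2 (t - (4 * i + 19)) (by omega) (by omega)
        exact Or.inr ⟨q, hq, Or.inl (by omega)⟩
      clear h1
      rename' h => h1
      rcases Nat.lt_or_ge t (24 * i + 106) with h | h
      · obtain ⟨q, hq, hqt⟩ := hy0 (t - (22 * i + 96)) (by omega) (by omega)
        exact Or.inr ⟨q, hq, Or.inr (Or.inl (by omega))⟩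
      clear h1
      rename' h => h1
      rcases Nat.lt_or_ge t (28 * i + 122) with h | h
      · obtain ⟨q, hq, hqt⟩ := hs02 t (by omega) (by omega) (by omega)
        exact Or.inr ⟨q, hq, Or.inr (Or.inr hqt)⟩
      clear h1
      rename' h => h1
      rcases Nat.lt_or_ge t (32 * i + 142) with h | h
      · obtain ⟨q, hq, hqt⟩ := hx3 (t - (4 * i + 19)) (by omega) (by omega)
        exact Or.inr ⟨q, hq, Or.inl (by omega)⟩
      clear h1
      rename' h => h1
      rcases Nat.lt_or_ge t (36 * i + 160) with h | h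
      · obtain ⟨q, hq, hqt⟩ := hy1 (t - (22 * i + 96)) (by omega) (by omega)
        exact Or.inr ⟨q, hq, Or.inr (Or.inl (by omega))⟩
      clear h1
      rename' h => h1
      rcases Nat.lt_or_ge t (40 * i + 174) with h | h
      · obtain ⟨q, hq, hqt⟩ := hs03 t (by omega) (by omega) (by omega)
        exact Or.inr ⟨q, hq, Or.inr (Or.inr hqt)⟩
      clear h1
      rename' h => h1
      rcases Nat.lt_or_ge t (44 * i + 192) with h | h
      · obtain ⟨q, hq, hqt⟩ := hy2 (t - (22 * i + 96)) (by omega) (by omega)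
        exact Or.inr ⟨q, hq, Or.inr (Or.inl (by omega))⟩
      clear h1
      rename' h => h1
      rcases Nat.lt_or_ge t (44 * i + 194) with h | h
      · obtain ⟨q, hq, hqt⟩ := hs04 t (by omega) (by omega) (by omega)
        exact Or.inr ⟨q, hq, Or.inr (Or.inr hqt)⟩
      clear h1
      rename' h => h1
      rcases Nat.lt_or_ge t (46 * i + 199) with h | h
      · obtain ⟨q, hq, hqt⟩ := hy3 (t - (22 * i + 96)) (by omega) (by omega)
        exact Or.inr ⟨q, hq, Or.inr (Or.inl (by omega))⟩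
      clear h1
      rename' h => h1
      rcases Nat.lt_or_ge t (50 * i + 220) with h | h
      · obtain ⟨q, hq, hqt⟩ := hs05 t (by omega) (by omega) (by omega)
        exact Or.inr ⟨q, hq, Or.inr (Or.inr hqt)⟩
      clear h1
      rename' h => h1
      obtain ⟨q, hq, hqt⟩ := hy4 (t - (22 * i + 96)) (by omega) (by omega)
      exact Or.inr ⟨q, hq, Or.inr (Or.inl (by omega))⟩
    · rcases Nat.lt_or_ge t (8 * i + 38) with h | h
      · obtain ⟨q, hq, hqt⟩ := hx0 (t - (4 * i + 19)) (by omega) (by omega)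
        exact Or.inr ⟨q, hq, Or.inl (by omega)⟩
      clear h1
      rename' h => h1
      rcases Nat.lt_or_ge t (14 * i + 65) with h | h
      · obtain ⟨q, hq, hqt⟩ := hx1 (t - (4 * i + 19)) (by omega) (by omega)
        exact Or.inr ⟨q, hq, Or.inl (by omega)⟩
      clear h1
      rename' h => h1
      rcases Nat.lt_or_ge t (18 * i + 83) with h | h
      · obtain ⟨q, hq, hqt⟩ := hs10 t (by omega) (by omega) (by omega)
        exact Or.inr ⟨q, hq, Or.inr (Or.inr hqt)⟩
      clear h1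
      rename' h => h1
      rcases Nat.lt_or_ge t (22 * i + 97) with h | h
      · obtain ⟨q, hq, hqt⟩ := hx2 (t - (4 * i + 19)) (by omega) (by omega)
        exact Or.inr ⟨q, hq, Or.inl (by omega)⟩
      clear h1
      rename' h => h1
      rcases Nat.lt_or_ge t (24 * i + 106) with h | h
      · obtain ⟨q, hq, hqt⟩ := hy0 (t - (22 * i + 96)) (by omega) (by omega)
        exact Or.inr ⟨q, hq, Or.inr (Or.inl (by omega))⟩
      clear h1
      rename' h => h1
      rcases Nat.lt_or_ge t (26 * i + 115) with h | h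
      · obtain ⟨q, hq, hqt⟩ := hs11 t (by omega) (by omega) (by omega)
        exact Or.inr ⟨q, hq, Or.inr (Or.inr hqt)⟩
      clear h1
      rename' h => h1
      rcases Nat.lt_or_ge t (26 * i + 116) with h | h
      · exact Or.inl (by omega)
      clear h1
      rename' h => h1
      rcases Nat.lt_or_ge t (28 * i + 123) with h | h
      · obtain ⟨q, hq, hqt⟩ := hs12 t (by omega) (by omega) (by omega)
        exact Or.inr ⟨q, hq, Or.inr (Or.inr hqt)⟩
      clear h1
      rename' h => h1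
      rcases Nat.lt_or_ge t (32 * i + 142) with h | h
      · obtain ⟨q, hq, hqt⟩ := hx3 (t - (4 * i + 19)) (by omega) (by omega)
        exact Or.inr ⟨q, hq, Or.inl (by omega)⟩
      clear h1
      rename' h => h1
      rcases Nat.lt_or_ge t (36 * i + 160) with h | h
      · obtain ⟨q, hq, hqt⟩ := hy1 (t - (22 * i + 96)) (by omega) (by omega)
        exact Or.inr ⟨q, hq, Or.inr (Or.inl (by omega))⟩
      clear h1
      rename' h => h1
      rcases Nat.lt_or_ge t (40 * i + 175) with h | h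
      · obtain ⟨q, hq, hqt⟩ := hs13 t (by omega) (by omega) (by omega)
        exact Or.inr ⟨q, hq, Or.inr (Or.inr hqt)⟩
      clear h1
      rename' h => h1
      rcases Nat.lt_or_ge t (44 * i + 192) with h | h
      · obtain ⟨q, hq, hqt⟩ := hy2 (t - (22 * i + 96)) (by omega) (by omega)
        exact Or.inr ⟨q, hq, Or.inr (Or.inl (by omega))⟩
      clear h1
      rename' h => h1
      rcases Nat.lt_or_ge t (46 * i + 199) with h | h
      · obtain ⟨q, hq, hqt⟩ := hy3 (t - (22 * i + 96)) (by omega) (by omega)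
        exact Or.inr ⟨q, hq, Or.inr (Or.inl (by omega))⟩
      clear h1
      rename' h => h1
      rcases Nat.lt_or_ge t (50 * i + 219) with h | h
      · obtain ⟨q, hq, hqt⟩ := hs14 t (by omega) (by omega) (by omega)
        exact Or.inr ⟨q, hq, Or.inr (Or.inr hqt)⟩
      clear h1
      rename' h => h1
      obtain ⟨q, hq, hqt⟩ := hy4 (t - (22 * i + 96)) (by omega) (by omega)
      exact Or.inr ⟨q, hq, Or.inr (Or.inl (by omega))⟩

end Pool.Agent.Lib_helper65.Book
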