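import Mathlib
import Pool.Agent.Lib_helper65.BookBlocks

/-!
# Super edge-magic labelings of books: the family OO for n = 5 mod 8
-/

namespace Pool.Agent.Lib_helper65.Book

/-- Block data of the family `OO` (`n = 16 * i + 61`). -/
def BOO (i : ℕ) : ℕ → ℕ × ℕ × ℕ
  | 0 => (2 * i + 9, 12 * i + 49, 2 * i + 8)
  | 1 => (4 * i + 18, 10 * i + 41, 2 * i + 8)
  | 2 => (6 * i + 26, 18 * i + 69, i + 2)
  | 3 => (7 * i + 28, 31 * i + 118, 1)
  | 4 => (7 * i + 29, i + 5, 1)
  | 5 => (7 * i + 30, 19 * i + 71, i + 4)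
  | 6 => (8 * i + 34, 30 * i + 114, 2)
  | 7 => (8 * i + 36, 28 * i + 109, 2 * i + 5)
  | 8 => (14 * i + 57, 32 * i + 124, 1)
  | 9 => (14 * i + 58, 22 * i + 86, i + 1)
  | 10 => (15 * i + 59, 31 * i + 119, 1)
  | 11 => (15 * i + 60, 31 * i + 117, 1)
  | 12 => (15 * i + 61, 21 * i + 82, 1)
  | 13 => (15 * i + 62, 23 * i + 90, i + 1)
  | 14 => (16 * i + 63, 30 * i + 116, 1)
  | 15 => (16 * i + 64, 32 * i + 123, 1)
  | 16 => (16 * i + 65, 20 * i + 77, 1)
  | 17 => (16 * i + 66, 30 * i + 117, i)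
  | 18 => (17 * i + 66, 31 * i + 120, i + 3)
  | 19 => (24 * i + 91, 2 * i + 8, 1)
  | 20 => (24 * i + 92, 20 * i + 78, 1)
  | 21 => (24 * i + 93, 1, i + 4)
  | 22 => (25 * i + 97, 23 * i + 88, 1)
  | 23 => (25 * i + 98, i + 6, i + 2)
  | 24 => (26 * i + 100, 20 * i + 76, 1)
  | 25 => (26 * i + 101, 20 * i + 79, i + 3)
  | 26 => (27 * i + 104, 23 * i + 89, 1)
  | 27 => (27 * i + 105, 23 * i + 87, 1)
  | 28 => (27 * i + 106, 21 * i + 83, i + 2)
  | 29 => (28 * i + 108, 20 * i + 75, 1)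
  | _ => (0, 0, 0)

theorem semOO (i : ℕ) : IsSuperEdgeMagic (book (16 * i + 61)) := by
  have hlen : (pairs 30 (BOO i)).length = 16 * i + 61 := by
    rw [length_pairs]
    simp only [Finset.sum_range_succ, Finset.sum_range_zero, BOO]
    omega
  have hx0 : ∀ t, 2 * i + 9 ≤ t → t < 4 * i + 17 → ∃ q ∈ pairs 30 (BOO i), q.1 = t :=
    ChainX.cover (l := [0]) (by simp only [ChainX, BOO]; omega) (by decide)
  have hx1 : ∀ t, 4 * i + 18 ≤ t → t < 10 * i + 41 → ∃ q ∈ pairs 30 (BOO i), q.1 = t :=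
    ChainX.cover (l := [1, 2, 3, 4, 5, 6, 7]) (by simp only [ChainX, BOO]; omega) (by decide)
  have hx2 : ∀ t, 14 * i + 57 ≤ t → t < 18 * i + 69 → ∃ q ∈ pairs 30 (BOO i), q.1 = t :=
    ChainX.cover (l := [8, 9, 10, 11, 12, 13, 14, 15, 16, 17, 18]) (by simp only [ChainX, BOO]; omega) (by decide)
  have hx3 : ∀ t, 24 * i + 91 ≤ t → t < 28 * i + 109 → ∃ q ∈ pairs 30 (BOO i), q.1 = t :=
    ChainX.cover (l := [19, 20, 21, 22, 23, 24, 25, 26, 27, 28, 29]) (by simp only [ChainX, BOO]; omega) (by decide)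
  have hy0 : ∀ t, 1 ≤ t → t < 2 * i + 9 → ∃ q ∈ pairs 30 (BOO i), q.2 = t :=
    ChainY.cover (l := [21, 4, 23, 19]) (by simp only [ChainY, BOO]; omega) (by decide)
  have hy1 : ∀ t, 10 * i + 41 ≤ t → t < 14 * i + 57 → ∃ q ∈ pairs 30 (BOO i), q.2 = t :=
    ChainY.cover (l := [1, 0]) (by simp only [ChainY, BOO]; omega) (by decide)
  have hy2 : ∀ t, 18 * i + 69 ≤ t → t < 22 * i + 85 → ∃ q ∈ pairs 30 (BOO i), q.2 = t :=
    ChainY.cover (l := [2, 5, 29, 24, 16, 20, 25, 12, 28]) (by simp only [ChainY, BOO]; omega) (by decide)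
  have hy3 : ∀ t, 22 * i + 86 ≤ t → t < 24 * i + 91 → ∃ q ∈ pairs 30 (BOO i), q.2 = t :=
    ChainY.cover (l := [9, 27, 22, 26, 13]) (by simp only [ChainY, BOO]; omega) (by decide)
  have hy4 : ∀ t, 28 * i + 109 ≤ t → t < 32 * i + 125 → ∃ q ∈ pairs 30 (BOO i), q.2 = t :=
    ChainY.cover (l := [7, 6, 14, 17, 11, 3, 10, 18, 15, 8]) (by simp only [ChainY, BOO]; omega) (by decide)
  have hs00 : ∀ t, 8 * i + 34 ≤ t → t < 8 * i + 36 → (t + (8 * i + 34)) % 2 = 0 →
      ∃ q ∈ pairs 30 (BOO i), q.1 + q.2 = t :=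
    ChainS.cover (l := [4]) (by simp only [ChainS, BOO]; omega) (by decide)
  have hs01 : ∀ t, 14 * i + 58 ≤ t → t < 18 * i + 74 → (t + (14 * i + 58)) % 2 = 0 →
      ∃ q ∈ pairs 30 (BOO i), q.1 + q.2 = t :=
    ChainS.cover (l := [0]) (by simp only [ChainS, BOO]; omega) (by decide)
  have hs02 : ∀ t, 24 * i + 94 ≤ t → t < 26 * i + 102 → (t + (24 * i + 94)) % 2 = 0 →
      ∃ q ∈ pairs 30 (BOO i), q.1 + q.2 = t :=
    ChainS.cover (l := [21]) (by simp only [ChainS, BOO]; omega) (by decide)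
  have hs03 : ∀ t, 26 * i + 104 ≤ t → t < 28 * i + 108 → (t + (26 * i + 104)) % 2 = 0 →
      ∃ q ∈ pairs 30 (BOO i), q.1 + q.2 = t :=
    ChainS.cover (l := [23]) (by simp only [ChainS, BOO]; omega) (by decide)
  have hs04 : ∀ t, 36 * i + 142 ≤ t → t < 40 * i + 154 → (t + (36 * i + 142)) % 2 = 0 →
      ∃ q ∈ pairs 30 (BOO i), q.1 + q.2 = t :=
    ChainS.cover (l := [16, 9, 3, 6, 13]) (by simp only [ChainS, BOO]; omega) (by decide)
  have hs05 : ∀ t, 44 * i + 170 ≤ t → t < 44 * i + 172 → (t + (44 * i + 170)) % 2 = 0 →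
      ∃ q ∈ pairs 30 (BOO i), q.1 + q.2 = t :=
    ChainS.cover (l := [20]) (by simp only [ChainS, BOO]; omega) (by decide)
  have hs06 : ∀ t, 46 * i + 176 ≤ t → t < 50 * i + 194 → (t + (46 * i + 176)) % 2 = 0 →
      ∃ q ∈ pairs 30 (BOO i), q.1 + q.2 = t :=
    ChainS.cover (l := [24, 10, 25, 18, 27]) (by simp only [ChainS, BOO]; omega) (by decide)
  have hs10 : ∀ t, 14 * i + 59 ≤ t → t < 18 * i + 75 → (t + (14 * i + 59)) % 2 = 0 →
      ∃ q ∈ pairs 30 (BOO i), q.1 + q.2 = t :=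
    ChainS.cover (l := [1]) (by simp only [ChainS, BOO]; omega) (by decide)
  have hs11 : ∀ t, 24 * i + 95 ≤ t → t < 28 * i + 109 → (t + (24 * i + 95)) % 2 = 0 →
      ∃ q ∈ pairs 30 (BOO i), q.1 + q.2 = t :=
    ChainS.cover (l := [2, 19, 5]) (by simp only [ChainS, BOO]; omega) (by decide)
  have hs12 : ∀ t, 36 * i + 143 ≤ t → t < 40 * i + 155 → (t + (36 * i + 143)) % 2 = 0 →
      ∃ q ∈ pairs 30 (BOO i), q.1 + q.2 = t :=
    ChainS.cover (l := [12, 7]) (by simp only [ChainS, BOO]; omega) (by decide)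
  have hs13 : ∀ t, 46 * i + 177 ≤ t → t < 50 * i + 195 → (t + (46 * i + 177)) % 2 = 0 →
      ∃ q ∈ pairs 30 (BOO i), q.1 + q.2 = t :=
    ChainS.cover (l := [11, 14, 8, 17, 29, 22, 15, 28, 26]) (by simp only [ChainS, BOO]; omega) (by decide)
  refine superEdgeMagic_of_list (16 * i + 61) (4 * i + 17) (22 * i + 85) (6 * i + 26) _ hlen ?_ ?_
  · intro t h1 h2
    rcases Nat.lt_or_ge t (2 * i + 9) with h | h
    · obtain ⟨q, hq, hqt⟩ := hy0 t (by omega) (by omega)
      exact Or.inr (Or.inr ⟨q, hq, Or.inr hqt⟩)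
    clear h1
    rename' h => h1
    rcases Nat.lt_or_ge t (4 * i + 17) with h | h
    · obtain ⟨q, hq, hqt⟩ := hx0 t (by omega) (by omega)
      exact Or.inr (Or.inr ⟨q, hq, Or.inl hqt⟩)
    clear h1
    rename' h => h1
    rcases Nat.lt_or_ge t (4 * i + 18) with h | h
    · exact Or.inl (by omega)
    clear h1
    rename' h => h1
    rcases Nat.lt_or_ge t (10 * i + 41) with h | h
    · obtain ⟨q, hq, hqt⟩ := hx1 t (by omega) (by omega)
      exact Or.inr (Or.inr ⟨q, hq, Or.inl hqt⟩)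
    clear h1
    rename' h => h1
    rcases Nat.lt_or_ge t (14 * i + 57) with h | h
    · obtain ⟨q, hq, hqt⟩ := hy1 t (by omega) (by omega)
      exact Or.inr (Or.inr ⟨q, hq, Or.inr hqt⟩)
    clear h1
    rename' h => h1
    rcases Nat.lt_or_ge t (18 * i + 69) with h | h
    · obtain ⟨q, hq, hqt⟩ := hx2 t (by omega) (by omega)
      exact Or.inr (Or.inr ⟨q, hq, Or.inl hqt⟩)
    clear h1
    rename' h => h1
    rcases Nat.lt_or_ge t (22 * i + 85) with h | h
    · obtain ⟨q, hq, hqt⟩ := hy2 t (by omega) (by omega)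
      exact Or.inr (Or.inr ⟨q, hq, Or.inr hqt⟩)
    clear h1
    rename' h => h1
    rcases Nat.lt_or_ge t (22 * i + 86) with h | h
    · exact Or.inr (Or.inl (by omega))
    clear h1
    rename' h => h1
    rcases Nat.lt_or_ge t (24 * i + 91) with h | h
    · obtain ⟨q, hq, hqt⟩ := hy3 t (by omega) (by omega)
      exact Or.inr (Or.inr ⟨q, hq, Or.inr hqt⟩)
    clear h1
    rename' h => h1
    rcases Nat.lt_or_ge t (28 * i + 109) with h | h
    · obtain ⟨q, hq, hqt⟩ := hx3 t (by omega) (by omega)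
      exact Or.inr (Or.inr ⟨q, hq, Or.inl hqt⟩)
    clear h1
    rename' h => h1
    obtain ⟨q, hq, hqt⟩ := hy4 t (by omega) (by omega)
    exact Or.inr (Or.inr ⟨q, hq, Or.inr hqt⟩)
  · intro t h1 h2
    rcases Nat.mod_two_eq_zero_or_one t with hp | hp
    · rcases Nat.lt_or_ge t (8 * i + 34) with h | h
      · obtain ⟨q, hq, hqt⟩ := hx0 (t - (4 * i + 17)) (by omega) (by omega)
        exact Or.inr ⟨q, hq, Or.inl (by omega)⟩
      clear h1
      rename' h => h1
      rcases Nat.lt_or_ge t (8 * i + 36) with h | h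
      · obtain ⟨q, hq, hqt⟩ := hs00 t (by omega) (by omega) (by omega)
        exact Or.inr ⟨q, hq, Or.inr (Or.inr hqt)⟩
      clear h1
      rename' h => h1
      rcases Nat.lt_or_ge t (14 * i + 58) with h | h
      · obtain ⟨q, hq, hqt⟩ := hx1 (t - (4 * i + 17)) (by omega) (by omega)
        exact Or.inr ⟨q, hq, Or.inl (by omega)⟩
      clear h1
      rename' h => h1
      rcases Nat.lt_or_ge t (18 * i + 74) with h | h
      · obtain ⟨q, hq, hqt⟩ := hs01 t (by omega) (by omega) (by omega)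
        exact Or.inr ⟨q, hq, Or.inr (Or.inr hqt)⟩
      clear h1
      rename' h => h1
      rcases Nat.lt_or_ge t (22 * i + 86) with h | h
      · obtain ⟨q, hq, hqt⟩ := hx2 (t - (4 * i + 17)) (by omega) (by omega)
        exact Or.inr ⟨q, hq, Or.inl (by omega)⟩
      clear h1
      rename' h => h1
      rcases Nat.lt_or_ge t (24 * i + 94) with h | h
      · obtain ⟨q, hq, hqt⟩ := hy0 (t - (22 * i + 85)) (by omega) (by omega)
        exact Or.inr ⟨q, hq, Or.inr (Or.inl (by omega))⟩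
      clear h1
      rename' h => h1
      rcases Nat.lt_or_ge t (26 * i + 102) with h | h
      · obtain ⟨q, hq, hqt⟩ := hs02 t (by omega) (by omega) (by omega)
        exact Or.inr ⟨q, hq, Or.inr (Or.inr hqt)⟩
      clear h1
      rename' h => h1
      rcases Nat.lt_or_ge t (26 * i + 103) with h | h
      · exact Or.inl (by omega)
      clear h1
      rename' h => h1
      rcases Nat.lt_or_ge t (28 * i + 108) with h | h
      · obtain ⟨q, hq, hqt⟩ := hs03 t (by omega) (by omega) (by omega)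
        exact Or.inr ⟨q, hq, Or.inr (Or.inr hqt)⟩
      clear h1
      rename' h => h1
      rcases Nat.lt_or_ge t (32 * i + 126) with h | h
      · obtain ⟨q, hq, hqt⟩ := hx3 (t - (4 * i + 17)) (by omega) (by omega)
        exact Or.inr ⟨q, hq, Or.inl (by omega)⟩
      clear h1
      rename' h => h1
      rcases Nat.lt_or_ge t (36 * i + 142) with h | h
      · obtain ⟨q, hq, hqt⟩ := hy1 (t - (22 * i + 85)) (by omega) (by omega)
        exact Or.inr ⟨q, hq, Or.inr (Or.inl (by omega))⟩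
      clear h1
      rename' h => h1
      rcases Nat.lt_or_ge t (40 * i + 154) with h | h
      · obtain ⟨q, hq, hqt⟩ := hs04 t (by omega) (by omega) (by omega)
        exact Or.inr ⟨q, hq, Or.inr (Or.inr hqt)⟩
      clear h1
      rename' h => h1
      rcases Nat.lt_or_ge t (44 * i + 170) with h | h
      · obtain ⟨q, hq, hqt⟩ := hy2 (t - (22 * i + 85)) (by omega) (by omega)
        exact Or.inr ⟨q, hq, Or.inr (Or.inl (by omega))⟩
      clear h1
      rename' h => h1
      rcases Nat.lt_or_ge t (44 * i + 172) with h | h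
      · obtain ⟨q, hq, hqt⟩ := hs05 t (by omega) (by omega) (by omega)
        exact Or.inr ⟨q, hq, Or.inr (Or.inr hqt)⟩
      clear h1
      rename' h => h1
      rcases Nat.lt_or_ge t (46 * i + 176) with h | h
      · obtain ⟨q, hq, hqt⟩ := hy3 (t - (22 * i + 85)) (by omega) (by omega)
        exact Or.inr ⟨q, hq, Or.inr (Or.inl (by omega))⟩
      clear h1
      rename' h => h1
      rcases Nat.lt_or_ge t (50 * i + 194) with h | h
      · obtain ⟨q, hq, hqt⟩ := hs06 t (by omega) (by omega) (by omega)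
        exact Or.inr ⟨q, hq, Or.inr (Or.inr hqt)⟩
      clear h1
      rename' h => h1
      obtain ⟨q, hq, hqt⟩ := hy4 (t - (22 * i + 85)) (by omega) (by omega)
      exact Or.inr ⟨q, hq, Or.inr (Or.inl (by omega))⟩
    · rcases Nat.lt_or_ge t (8 * i + 34) with h | h
      · obtain ⟨q, hq, hqt⟩ := hx0 (t - (4 * i + 17)) (by omega) (by omega)
        exact Or.inr ⟨q, hq, Or.inl (by omega)⟩
      clear h1
      rename' h => h1
      rcases Nat.lt_or_ge t (14 * i + 58) with h | h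
      · obtain ⟨q, hq, hqt⟩ := hx1 (t - (4 * i + 17)) (by omega) (by omega)
        exact Or.inr ⟨q, hq, Or.inl (by omega)⟩
      clear h1
      rename' h => h1
      rcases Nat.lt_or_ge t (18 * i + 75) with h | h
      · obtain ⟨q, hq, hqt⟩ := hs10 t (by omega) (by omega) (by omega)
        exact Or.inr ⟨q, hq, Or.inr (Or.inr hqt)⟩
      clear h1
      rename' h => h1
      rcases Nat.lt_or_ge t (22 * i + 86) with h | h
      · obtain ⟨q, hq, hqt⟩ := hx2 (t - (4 * i + 17)) (by omega) (by omega)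
        exact Or.inr ⟨q, hq, Or.inl (by omega)⟩
      clear h1
      rename' h => h1
      rcases Nat.lt_or_ge t (24 * i + 94) with h | h
      · obtain ⟨q, hq, hqt⟩ := hy0 (t - (22 * i + 85)) (by omega) (by omega)
        exact Or.inr ⟨q, hq, Or.inr (Or.inl (by omega))⟩
      clear h1
      rename' h => h1
      rcases Nat.lt_or_ge t (28 * i + 109) with h | h
      · obtain ⟨q, hq, hqt⟩ := hs11 t (by omega) (by omega) (by omega)
        exact Or.inr ⟨q, hq, Or.inr (Or.inr hqt)⟩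
      clear h1
      rename' h => h1
      rcases Nat.lt_or_ge t (32 * i + 126) with h | h
      · obtain ⟨q, hq, hqt⟩ := hx3 (t - (4 * i + 17)) (by omega) (by omega)
        exact Or.inr ⟨q, hq, Or.inl (by omega)⟩
      clear h1
      rename' h => h1
      rcases Nat.lt_or_ge t (36 * i + 142) with h | h
      · obtain ⟨q, hq, hqt⟩ := hy1 (t - (22 * i + 85)) (by omega) (by omega)
        exact Or.inr ⟨q, hq, Or.inr (Or.inl (by omega))⟩
      clear h1
      rename' h => h1
      rcases Nat.lt_or_ge t (40 * i + 155) with h | h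
      · obtain ⟨q, hq, hqt⟩ := hs12 t (by omega) (by omega) (by omega)
        exact Or.inr ⟨q, hq, Or.inr (Or.inr hqt)⟩
      clear h1
      rename' h => h1
      rcases Nat.lt_or_ge t (44 * i + 170) with h | h
      · obtain ⟨q, hq, hqt⟩ := hy2 (t - (22 * i + 85)) (by omega) (by omega)
        exact Or.inr ⟨q, hq, Or.inr (Or.inl (by omega))⟩
      clear h1
      rename' h => h1
      rcases Nat.lt_or_ge t (46 * i + 176) with h | h
      · obtain ⟨q, hq, hqt⟩ := hy3 (t - (22 * i + 85)) (by omega) (by omega)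
        exact Or.inr ⟨q, hq, Or.inr (Or.inl (by omega))⟩
      clear h1
      rename' h => h1
      rcases Nat.lt_or_ge t (50 * i + 195) with h | h
      · obtain ⟨q, hq, hqt⟩ := hs13 t (by omega) (by omega) (by omega)
        exact Or.inr ⟨q, hq, Or.inr (Or.inr hqt)⟩
      clear h1
      rename' h => h1
      obtain ⟨q, hq, hqt⟩ := hy4 (t - (22 * i + 85)) (by omega) (by omega)
      exact Or.inr ⟨q, hq, Or.inr (Or.inl (by omega))⟩

end Pool.Agent.Lib_helper65.Book
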