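import Mathlib
import Pool.Agent.Lib_helper65.BookBlocks

/-!
# Super edge-magic labelings of books: the small cases
-/

namespace Pool.Agent.Lib_helper65.Book

theorem semSmall5 : IsSuperEdgeMagic (book 5) :=
  of_check 5 3 8 5 [(2, 11), (4, 12), (5, 1), (7, 10), (9, 6)]
    (by decide +kernel)

theorem semSmall6 : IsSuperEdgeMagic (book 6) :=
  of_check 6 5 10 6 [(1, 12), (2, 14), (3, 7), (4, 8), (6, 13), (9, 11)]
    (by decide +kernel)

theorem semSmall13 : IsSuperEdgeMagic (book 13) :=
  of_check 13 5 19 8 [(3, 28), (4, 26), (6, 27), (7, 25), (8, 2), (9, 16), (11, 15), (12, 24), (13, 10), (14, 1), (17, 21), (22, 20), (23, 18)]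
    (by decide +kernel)

theorem semSmall21 : IsSuperEdgeMagic (book 21) :=
  of_check 21 7 30 11 [(4, 44), (5, 42), (6, 43), (8, 38), (9, 41), (11, 40), (12, 2), (13, 39), (14, 3), (16, 37), (17, 26), (18, 24), (19, 25), (20, 15), (21, 1), (22, 35), (23, 36), (27, 34), (29, 33), (31, 10), (32, 28)]
    (by decide +kernel)

theorem semSmall29 : IsSuperEdgeMagic (book 29) :=
  of_check 29 9 41 14 [(5, 10), (7, 11), (8, 12), (13, 6), (14, 15), (16, 17), (18, 3), (19, 20), (21, 33), (22, 4), (23, 1), (25, 24), (26, 56), (27, 40), (28, 44), (29, 58), (31, 47), (32, 38), (37, 36), (39, 53), (46, 49), (48, 52), (50, 30), (51, 45), (54, 35), (55, 43), (57, 34), (59, 42), (60, 2)]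
    (by decide +kernel)

theorem semSmall37 : IsSuperEdgeMagic (book 37) :=
  of_check 37 11 52 17 [(6, 18), (7, 71), (8, 59), (9, 24), (10, 12), (14, 73), (15, 20), (16, 74), (17, 72), (19, 64), (21, 2), (23, 13), (26, 3), (27, 42), (28, 54), (29, 63), (30, 1), (31, 76), (32, 56), (34, 41), (35, 66), (36, 25), (37, 67), (38, 53), (39, 45), (40, 4), (47, 5), (48, 61), (49, 50), (51, 22), (55, 65), (57, 43), (60, 62), (68, 44), (69, 58), (70, 33), (75, 46)]
    (by decide +kernel)

theorem semSmall45 : IsSuperEdgeMagic (book 45) :=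
  of_check 45 13 63 20 [(7, 81), (8, 53), (9, 74), (10, 87), (11, 85), (12, 89), (14, 88), (15, 80), (16, 78), (17, 86), (18, 75), (19, 73), (20, 84), (21, 5), (22, 83), (24, 82), (25, 54), (26, 56), (28, 61), (29, 79), (30, 6), (31, 91), (32, 77), (33, 51), (34, 76), (35, 52), (36, 92), (38, 69), (39, 1), (40, 37), (41, 57), (42, 71), (43, 48), (44, 27), (45, 90), (46, 4), (47, 23), (50, 49), (59, 3), (60, 70), (62, 64), (65, 66), (67, 58), (68, 55), (72, 2)]
    (by decide +kernel)

theorem semSmall53 : IsSuperEdgeMagic (book 53) :=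
  of_check 53 15 74 23 [(8, 22), (9, 65), (10, 46), (11, 26), (12, 31), (13, 105), (14, 98), (16, 106), (17, 102), (18, 93), (19, 91), (20, 89), (21, 96), (23, 61), (24, 83), (25, 81), (27, 59), (29, 100), (30, 95), (32, 94), (33, 28), (34, 70), (35, 63), (36, 5), (37, 76), (38, 90), (39, 62), (40, 92), (43, 103), (44, 2), (45, 85), (47, 41), (48, 73), (49, 99), (50, 42), (51, 57), (52, 101), (53, 71), (54, 87), (55, 97), (56, 1), (58, 104), (67, 60), (68, 4), (72, 86), (75, 107), (78, 64), (79, 77), (80, 69), (82, 3), (84, 7), (88, 66), (108, 6)]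
    (by decide +kernel)

end Pool.Agent.Lib_helper65.Book
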